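import Pool.Agent.Helper94.GA.FI
import Pool.Agent.Helper29.RO.Hall

/-!
# The growth of groups and Lehmer's problem: arbitrary groups

No solvability is assumed: the quotients by the second derived subgroups of `P` and of its
commutator subgroup are used.
-/

set_option autoImplicit false

namespace Pool.Agent.Helper94.GA.FI2

open Pointwise Filter Topology

universe u v w


theorem map_ds {P : Type*} [Group P] (n : ℕ) :
    (derivedSeries (commutator P) n).map (commutator P).subtype = derivedSeries P (n + 1) := by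
  induction n with
  | zero =>
    rw [derivedSeries_zero, ← MonoidHom.range_eq_map, Subgroup.range_subtype]
    rfl
  | succ n ih =>
    rw [derivedSeries_succ, Subgroup.map_commutator, ih, derivedSeries_succ P (n + 1)]

theorem nil_comm_comm {P : Type*} [Group P] (h : Group.IsNilpotent (derivedSeries P 2)) :
    Group.IsNilpotent (commutator (commutator P)) := by
  have e : (commutator (commutator P)).map (commutator P).subtype = derivedSeries P 2 :=
    map_ds (P := P) 1
  have h2 : Group.IsNilpotent ((commutator (commutator P)).map (commutator P).subtype) := by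
    rw [e]; exact h
  exact Group.nilpotent_of_mulEquiv
    ((commutator (commutator P)).equivMapOfInjective _ (commutator P).subtype_injective).symm

theorem nil_of_three {P : Type*} [Group P] (h : derivedSeries P 3 = ⊥) :
    Group.IsNilpotent (derivedSeries P 2) := by
  have hc : ∀ a b : derivedSeries P 2, a * b = b * a := by
    intro a b
    apply Subtype.ext
    have h0 : ⁅derivedSeries P 2, derivedSeries P 2⁆ = ⊥ := h
    have h1 := Subgroup.commutator_mem_commutator a.2 b.2
    rw [h0, Subgroup.mem_bot] at h1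
    exact commutatorElement_eq_one_iff_mul_comm.1 h1
  let _ : CommGroup (derivedSeries P 2) := { (inferInstance : Group (derivedSeries P 2)) with
    mul_comm := hc }
  exact CommGroup.isNilpotent

theorem ds_three_quot {P : Type*} [Group P] : derivedSeries (P ⧸ derivedSeries P 3) 3 = ⊥ := by
  rw [← map_derivedSeries_eq (f := QuotientGroup.mk' (derivedSeries P 3))
    (QuotientGroup.mk'_surjective _) 3, Subgroup.map_eq_bot_iff, QuotientGroup.ker_mk']

theorem vn_two {P : Type*} [Group P]
    (h : ¬ ∃ M : Subgroup (commutator P ⧸ derivedSeries (commutator P) 2),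
      M.FiniteIndex ∧ Group.IsNilpotent M) :
    ¬ ∃ M : Subgroup (commutator (P ⧸ derivedSeries P 3)), M.FiniteIndex ∧ Group.IsNilpotent M := by
  intro hc
  apply h
  have hmap : (commutator P).map (QuotientGroup.mk' (derivedSeries P 3)) =
      commutator (P ⧸ derivedSeries P 3) :=
    map_derivedSeries_eq (f := QuotientGroup.mk' (derivedSeries P 3))
      (QuotientGroup.mk'_surjective _) 1
  have hmem : ∀ x : commutator P, QuotientGroup.mk' (derivedSeries P 3) (x : P) ∈
      commutator (P ⧸ derivedSeries P 3) := by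
    intro x
    rw [← hmap]
    exact ⟨x, x.2, rfl⟩
  obtain ⟨g, hg⟩ : ∃ g : commutator P →* commutator (P ⧸ derivedSeries P 3),
      ∀ x, ((g x : commutator (P ⧸ derivedSeries P 3)) : P ⧸ derivedSeries P 3) =
        QuotientGroup.mk' (derivedSeries P 3) (x : P) :=
    ⟨((QuotientGroup.mk' (derivedSeries P 3)).comp (commutator P).subtype).codRestrict _ hmem,
      fun x => rfl⟩
  have hker : ∀ x : commutator P, g x = 1 ↔ x ∈ derivedSeries (commutator P) 2 := by
    intro x
    rw [Subtype.ext_iff, hg, Subgroup.coe_one, QuotientGroup.mk'_apply,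
      QuotientGroup.eq_one_iff, ← map_ds (P := P) 2]
    constructor
    · rintro ⟨y, hy, hyx⟩
      have : y = x := Subtype.ext hyx
      rwa [← this]
    · intro hx
      exact ⟨x, hx, rfl⟩
  have hle : derivedSeries (commutator P) 2 ≤ g.ker := fun x hx =>
    MonoidHom.mem_ker.2 ((hker x).2 hx)
  refine vn_of_bij (QuotientGroup.lift (derivedSeries (commutator P) 2) g hle) ?_ ?_ hc
  · rw [injective_iff_map_eq_one]
    intro q hq
    obtain ⟨x, rfl⟩ := QuotientGroup.mk_surjective q
    rw [QuotientGroup.lift_mk] at hq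
    exact (QuotientGroup.eq_one_iff x).2 ((hker x).1 hq)
  · intro y
    have hy : (y : P ⧸ derivedSeries P 3) ∈
        (commutator P).map (QuotientGroup.mk' (derivedSeries P 3)) := by
      rw [hmap]; exact y.2
    obtain ⟨x, hx, hxy⟩ := hy
    refine ⟨QuotientGroup.mk ⟨x, hx⟩, ?_⟩
    rw [QuotientGroup.lift_mk]
    apply Subtype.ext
    rw [hg]
    exact hxy

theorem final_four {Γ : Type u} [Group Γ] [DecidableEq Γ] (S : Finset Γ)
    (hsymm : ∀ s ∈ S, s⁻¹ ∈ S) {Q : Type v} [Group Q]
    (φ : Subgroup.closure (S : Set Γ) →* Q) (hφ : Function.Surjective φ) (H : Subgroup Q) (f : ℕ)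
    (hf : 0 < f) (hH : H.index = f) {P : Type w} [Group P] (θ : H →* P)
    (hθ : Function.Surjective θ)
    (h : (¬ ∃ M : Subgroup (P ⧸ derivedSeries P 2), M.FiniteIndex ∧ Group.IsNilpotent M) ∨
      (¬ ∃ M : Subgroup (commutator P ⧸ derivedSeries (commutator P) 2),
        M.FiniteIndex ∧ Group.IsNilpotent M) ∨
      (Group.IsNilpotent (derivedSeries P 2) ∧
        ¬ ∃ M : Subgroup (commutator P), M.FiniteIndex ∧ Group.IsNilpotent M) ∨
      (Group.IsNilpotent (commutator P) ∧
        ¬ ∃ M : Subgroup P, M.FiniteIndex ∧ Group.IsNilpotent M)) :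
    ∃ ρ : ℝ, Tendsto (fun n : ℕ => Real.log ((S ^ n).card : ℝ) / n) atTop (𝓝 ρ) ∧
      ∃ lam : ℂ, lam ≠ 0 ∧ IsIntegral ℤ lam ∧ IsIntegral ℤ lam⁻¹ ∧
        (∀ k : ℕ, 0 < k → lam ^ k ≠ 1) ∧
        (1 / (352 * (2 * f - 1))) *
          min 1 (Real.log ((minpoly ℤ lam).map (Int.castRingHom ℂ)).mahlerMeasure) ≤ ρ := by
  have hone : (¬ ∃ M : Subgroup (P ⧸ derivedSeries P 2), M.FiniteIndex ∧ Group.IsNilpotent M) →
      ∃ ρ : ℝ, Tendsto (fun n : ℕ => Real.log ((S ^ n).card : ℝ) / n) atTop (𝓝 ρ) ∧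
      ∃ lam : ℂ, lam ≠ 0 ∧ IsIntegral ℤ lam ∧ IsIntegral ℤ lam⁻¹ ∧
        (∀ k : ℕ, 0 < k → lam ^ k ≠ 1) ∧
        (1 / (352 * (2 * f - 1))) *
          min 1 (Real.log ((minpoly ℤ lam).map (Int.castRingHom ℂ)).mahlerMeasure) ≤ ρ :=
    fun h1 => final_fi S hsymm φ hφ H f hf hH ((QuotientGroup.mk' (derivedSeries P 2)).comp θ)
      ((QuotientGroup.mk'_surjective _).comp hθ) quot_three (Or.inr (not_vn_quot_quot h1))
  have htwo : (¬ ∃ M : Subgroup (commutator P ⧸ derivedSeries (commutator P) 2),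
        M.FiniteIndex ∧ Group.IsNilpotent M) →
      ∃ ρ : ℝ, Tendsto (fun n : ℕ => Real.log ((S ^ n).card : ℝ) / n) atTop (𝓝 ρ) ∧
      ∃ lam : ℂ, lam ≠ 0 ∧ IsIntegral ℤ lam ∧ IsIntegral ℤ lam⁻¹ ∧
        (∀ k : ℕ, 0 < k → lam ^ k ≠ 1) ∧
        (1 / (352 * (2 * f - 1))) *
          min 1 (Real.log ((minpoly ℤ lam).map (Int.castRingHom ℂ)).mahlerMeasure) ≤ ρ :=
    fun h2 => final_fi S hsymm φ hφ H f hf hH ((QuotientGroup.mk' (derivedSeries P 3)).comp θ)
      ((QuotientGroup.mk'_surjective _).comp hθ) ds_three_quot (Or.inl (vn_two h2))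
  rcases h with h1 | h2 | ⟨h3, h4⟩ | ⟨h5, h6⟩
  · exact hone h1
  · exact htwo h2
  · exact htwo (Pool.Agent.Helper29.RO.not_vn_quot (nil_comm_comm h3) h4)
  · exact hone (Pool.Agent.Helper29.RO.not_vn_quot h5 h6)

end Pool.Agent.Helper94.GA.FI2
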