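import Pool.Agent.Helper94.GA.Final
import Pool.Agent.Helper75.GA.ENT
import Pool.Agent.Helper27.GA.ENT2
import Pool.Agent.Helper89.GA.CHN
import Pool.Agent.Helper31.GA.INFO
import Pool.Agent.Helper65.GA.VAR
import Pool.Agent.Helper5.GA.INC
import Pool.Agent.Helper33.GA.AVG
import Pool.Agent.Helper96.GA.BIG
import Pool.Agent.Helper90.GA.DET
import Pool.Agent.Helper86.GA.RK1
import Pool.Agent.Helper54.GA.GRD1
import Pool.Agent.Helper6.GA.GRD3
import Pool.Agent.Helper45.GA.GRDF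
import Pool.Agent.Helper77.GA.GRD
import Pool.Agent.Helper57.GA.EMB
import Pool.Agent.Helper85.GA.CAST
import Pool.Agent.Helper58.GA.CMBMIN
import Pool.Agent.Helper60.GA.CMB
import Pool.Agent.Helper13.GA.FIN1
import Pool.Agent.Helper56.GA.FIN2
import Pool.Agent.Helper83.GA.MET
import Pool.Agent.Helper11.GA.PCFG
import Pool.Agent.Helper17.GA.FBN
import Pool.Agent.Helper73.GA.UNI
import Pool.Agent.Helper67.GA.JNT
import Pool.Agent.Helper84.GA.AFF
import Pool.Agent.Helper25.GA.RATE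
import Pool.Agent.Helper69.GA.GOLD
import Pool.Agent.Helper19.GA.TW
import Pool.Agent.Helper3.GA.GRD5
import Pool.Agent.Helper59.GA.GRD2

/-!
# All packets together
-/

namespace Pool.Agent.Helper94.GA

universe u v w

theorem inc : INC_stmt.{u} := Pool.Agent.Helper5.GA.INC Pool.Agent.Helper31.GA.INFO Pool.Agent.Helper65.GA.VAR

theorem avg : AVG_stmt.{u} := Pool.Agent.Helper33.GA.AVG Pool.Agent.Helper75.GA.ENT inc

theorem big : BIG_stmt.{u} := Pool.Agent.Helper96.GA.BIG avg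

theorem grd1 : GRD1_stmt := Pool.Agent.Helper54.GA.GRD1 Pool.Agent.Helper90.GA.DET
  Pool.Agent.Helper86.GA.RK1

theorem chn : CHN_stmt.{u, v} := Pool.Agent.Helper89.GA.CHN Pool.Agent.Helper75.GA.ENT
  Pool.Agent.Helper75.GA.ENT Pool.Agent.Helper27.GA.ENT2

theorem fin1 : FIN1_stmt.{u, v} := Pool.Agent.Helper13.GA.FIN1 chn

theorem cmb : CMB_stmt.{u, v} := Pool.Agent.Helper60.GA.CMB Pool.Agent.Helper58.GA.CMBMIN

theorem uni : UNI_stmt.{u} := Pool.Agent.Helper73.GA.UNI Pool.Agent.Helper17.GA.FBN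

theorem final_theorem : FINAL_stmt.{u, v} := by
  have hGRD : GRD_stmt.{0} := Pool.Agent.Helper77.GA.GRD avg Pool.Agent.Helper86.GA.RK1 grd1
    Pool.Agent.Helper59.GA.GRD2
    Pool.Agent.Helper6.GA.GRD3 (Pool.Agent.Helper3.GA.GRD5
      Pool.Agent.Helper90.GA.DET) Pool.Agent.Helper45.GA.GRDF
  have htw : TW_stmt.{0} := Pool.Agent.Helper19.GA.TW big hGRD Pool.Agent.Helper57.GA.EMB
  exact FINAL Pool.Agent.Helper69.GA.GOLD Pool.Agent.Helper85.GA.CAST cmb (Pool.Agent.Helper56.GA.FIN2 htw fin1)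
    (Pool.Agent.Helper83.GA.MET Pool.Agent.Helper75.GA.ENT htw) Pool.Agent.Helper11.GA.PCFG uni
    Pool.Agent.Helper67.GA.JNT Pool.Agent.Helper84.GA.AFF Pool.Agent.Helper25.GA.RATE

end Pool.Agent.Helper94.GA
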