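import Pool.Agent.Helper94.GA.All
import Pool.Agent.Helper84.RO.FI

/-!
# The growth of solvable groups and Lehmer's problem: subgroups of finite index
-/

set_option autoImplicit false

namespace Pool.Agent.Helper94.GA

open Pointwise Filter Topology
open Pool.Agent.Helper11.Gap (Sym)

universe u v w

/-- Comparison of growth rates: `T ^ n` has at most `2 |S ^ (F n + 1)|` elements. -/
theorem rate_compare (a b : ℕ → ℝ) (F : ℕ) (hF : 0 < F) (ρ' ρ : ℝ)
    (ha : Tendsto (fun n : ℕ => a n / n) atTop (𝓝 ρ'))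
    (hb : Tendsto (fun n : ℕ => b n / n) atTop (𝓝 ρ))
    (hab : ∀ n, a n ≤ Real.log 2 + b (F * n + 1)) : ρ' ≤ F * ρ := by
  have hF' : (0 : ℝ) < F := by exact_mod_cast hF
  have hsub : Tendsto (fun k : ℕ => F * k + 1) atTop atTop := by
    exact (tendsto_add_atTop_iff_nat 1).2 tendsto_id |>.comp (tendsto_id.const_mul_atTop' hF)
  have h1 : Tendsto (fun n : ℕ => b (F * n + 1) / ((F * n + 1 : ℕ) : ℝ)) atTop (𝓝 ρ) :=
    hb.comp hsub
  have h2 : Tendsto (fun n : ℕ => ((F : ℝ) + 1 / (n : ℝ))) atTop (𝓝 ((F : ℝ) + 0)) :=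
    tendsto_const_nhds.add (tendsto_const_div_atTop_nhds_zero_nat _)
  have h3 : Tendsto (fun n : ℕ => Real.log 2 / (n : ℝ)) atTop (𝓝 0) :=
    tendsto_const_div_atTop_nhds_zero_nat _
  have h4 := h3.add (h2.mul h1)
  rw [zero_add, add_zero] at h4
  refine le_of_tendsto_of_tendsto ha h4 ?_
  filter_upwards [eventually_gt_atTop 0] with n hn
  have hn' : (0 : ℝ) < n := by exact_mod_cast hn
  have h5 := hab n
  have e : Real.log 2 / (n : ℝ) + ((F : ℝ) + 1 / (n : ℝ)) * (b (F * n + 1) / ((F * n + 1 : ℕ) : ℝ)) =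
      (Real.log 2 + b (F * n + 1)) / n := by
    have h6 : ((F * n + 1 : ℕ) : ℝ) = (F : ℝ) * n + 1 := by push_cast; ring
    have h7 : (0 : ℝ) < (F : ℝ) * n + 1 := by positivity
    rw [h6]
    field_simp
  show a n / n ≤ _
  rw [e]
  exact div_le_div_of_nonneg_right h5 hn'.le

theorem VN_of_subsingleton (G : Type*) [Group G] [Subsingleton G] :
    ∃ N : Subgroup G, N.FiniteIndex ∧ Group.IsNilpotent N := by
  refine ⟨⊤, inferInstance, ?_⟩
  infer_instance

theorem final_fi {Γ : Type u} [Group Γ] [DecidableEq Γ] (S : Finset Γ)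
    (hsymm : ∀ s ∈ S, s⁻¹ ∈ S) {Q : Type v} [Group Q]
    (φ : Subgroup.closure (S : Set Γ) →* Q) (hφ : Function.Surjective φ) (H : Subgroup Q) (f : ℕ)
    (hf : 0 < f) (hH : H.index = f) {P : Type w} [Group P] (θ : H →* P)
    (hθ : Function.Surjective θ) (h3 : derivedSeries P 3 = ⊥)
    (hnv : (¬ ∃ M : Subgroup (commutator P), M.FiniteIndex ∧ Group.IsNilpotent M) ∨
      (¬ ∃ M : Subgroup (P ⧸ derivedSeries P 2), M.FiniteIndex ∧ Group.IsNilpotent M)) :
    ∃ ρ : ℝ, Tendsto (fun n : ℕ => Real.log ((S ^ n).card : ℝ) / n) atTop (𝓝 ρ) ∧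
      ∃ lam : ℂ, lam ≠ 0 ∧ IsIntegral ℤ lam ∧ IsIntegral ℤ lam⁻¹ ∧
        (∀ k : ℕ, 0 < k → lam ^ k ≠ 1) ∧
        (1 / (352 * (2 * f - 1))) *
          min 1 (Real.log ((minpoly ℤ lam).map (Int.castRingHom ℂ)).mahlerMeasure) ≤ ρ := by
  classical
  subst hH
  have hne : S.Nonempty := by
    by_contra hemp
    rw [Finset.not_nonempty_iff_eq_empty] at hemp
    have hQ : ∀ x : Q, x = 1 := by
      intro x
      have hbot : Subgroup.closure (S : Set Γ) = ⊥ := by rw [hemp]; simp
      obtain ⟨y, hy⟩ := hφ x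
      have hy1 : y = 1 := Subtype.ext (Subgroup.mem_bot.1 (hbot.le y.2))
      rw [← hy, hy1, map_one]
    have hP : Subsingleton P := by
      constructor
      intro x y
      obtain ⟨x, rfl⟩ := hθ x
      obtain ⟨y, rfl⟩ := hθ y
      have : x = y := Subtype.ext ((hQ _).trans (hQ _).symm)
      rw [this]
    rcases hnv with h | h
    · exact h (VN_of_subsingleton _)
    · apply h
      have : Subsingleton (P ⧸ derivedSeries P 2) := by
        constructor
        intro x y
        obtain ⟨x, rfl⟩ := QuotientGroup.mk_surjective x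
        obtain ⟨y, rfl⟩ := QuotientGroup.mk_surjective y
        rw [Subsingleton.elim x y]
      exact VN_of_subsingleton _
  obtain ⟨ρ, hρ⟩ := Pool.Agent.Helper11.Gap.exists_rate S hne
  refine ⟨ρ, hρ, ?_⟩
  obtain ⟨C, hC⟩ : ∃ C : Subgroup Γ, C = Subgroup.closure (S : Set Γ) := ⟨_, rfl⟩
  subst hC
  set T : Finset (Subgroup.closure (S : Set Γ)) :=
    Finset.subtype (fun x => x ∈ Subgroup.closure (S : Set Γ)) (insert 1 S) with hTdef
  have hTmem : ∀ x : Subgroup.closure (S : Set Γ), x ∈ T ↔ (x : Γ) = 1 ∨ (x : Γ) ∈ S := by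
    intro x
    rw [hTdef, Finset.mem_subtype, Finset.mem_insert]
  have hTsym : Sym T := by
    constructor
    · rw [hTmem]; exact Or.inl rfl
    · intro x hx
      rw [hTmem] at hx ⊢
      rcases hx with hx | hx
      · left; rw [Subgroup.coe_inv, hx, inv_one]
      · right; exact hsymm _ hx
  have hgen : Subgroup.closure (T : Set (Subgroup.closure (S : Set Γ))) = ⊤ := by
    rw [eq_top_iff, ← Subgroup.closure_closure_coe_preimage (k := (S : Set Γ))]
    apply Subgroup.closure_mono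
    intro x hx
    rw [Finset.mem_coe, hTmem]
    exact Or.inr hx
  have himg : T.image (Subgroup.closure (S : Set Γ)).subtype = insert 1 S := by
    ext x
    rw [Finset.mem_image]
    constructor
    · rintro ⟨y, hy, rfl⟩
      rw [hTmem] at hy
      rw [Finset.mem_insert]
      exact hy
    · intro hx
      rw [Finset.mem_insert] at hx
      have hxC : x ∈ Subgroup.closure (S : Set Γ) := by
        rcases hx with rfl | hx
        · exact Subgroup.one_mem _
        · exact Subgroup.subset_closure hx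
      exact ⟨⟨x, hxC⟩, (hTmem _).2 hx, rfl⟩
  have hindex : (H.comap φ).index = H.index := Subgroup.index_comap_of_surjective H hφ
  have hcomap0 : (H.comap φ).index ≠ 0 := by rw [hindex]; exact hf.ne'
  obtain ⟨T', hT', hgen', hmem⟩ := Pool.Agent.Helper84.RO.exists_gen hTsym hgen (H.comap φ) hcomap0
  rw [hindex] at hmem
  -- the quotient map
  obtain ⟨ψ, hψ⟩ : ∃ ψ : Subgroup.closure (T' : Set (H.comap φ)) →* P,
      ψ = (θ.comp (φ.subgroupComap H)).comp
        (Subgroup.closure (T' : Set (H.comap φ))).subtype := ⟨_, rfl⟩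
  have hψs : Function.Surjective ψ := by
    intro q
    obtain ⟨x, rfl⟩ := hθ q
    obtain ⟨y, rfl⟩ := φ.subgroupComap_surjective_of_surjective H hφ x
    refine ⟨⟨y, by rw [hgen']; exact Subgroup.mem_top _⟩, ?_⟩
    rw [hψ]
    rfl
  obtain ⟨ρ', hρ', lam, hl0, hl1, hl2, hl3, hl4⟩ :=
    final_theorem (H.comap φ) T' (fun s hs => hT'.inv s hs) P ψ hψs h3 hnv
  refine ⟨lam, hl0, hl1, hl2, hl3, ?_⟩
  obtain ⟨F, hFdef⟩ : ∃ F : ℕ, F = 2 * H.index - 1 := ⟨_, rfl⟩
  have hF : 0 < F := by omega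
  have hcast : (2 * (H.index : ℝ) - 1) = F := by
    rw [hFdef, Nat.cast_sub (by omega)]
    push_cast
    ring
  have hcard : ∀ n, (T' ^ n).card ≤ 2 * (S ^ (F * n + 1)).card := by
    intro n
    have h1 : (T' ^ n).image (H.comap φ).subtype ⊆ T ^ (F * n) := by
      have h1 : (T' ^ n).image (H.comap φ).subtype = (T'.image (H.comap φ).subtype) ^ n :=
        Finset.image_pow _ _ _
      rw [h1, pow_mul T]
      apply Finset.pow_subset_pow_left
      intro x hx
      obtain ⟨y, hy, rfl⟩ := Finset.mem_image.1 hx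
      rw [hFdef]
      exact hmem y hy
    have h2 : (T' ^ n).card ≤ (T ^ (F * n)).card := by
      rw [← Finset.card_image_of_injective (T' ^ n) (H.comap φ).subtype_injective]
      exact Finset.card_le_card h1
    have h3 : ((insert 1 S) ^ (F * n)).card = (T ^ (F * n)).card := by
      rw [← himg, ← Finset.image_pow,
        Finset.card_image_of_injective _ (Subgroup.closure (S : Set Γ)).subtype_injective]
    rw [← h3] at h2
    exact h2.trans (Pool.Agent.Helper11.Gap.card_insert_pow_le S hne hsymm (F * n))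
  have hle : ρ' ≤ F * ρ := by
    refine rate_compare (fun n => Real.log ((T' ^ n).card : ℝ)) (fun n => Real.log ((S ^ n).card : ℝ))
      F hF ρ' ρ hρ' hρ fun n => ?_
    have h1 : (0 : ℝ) < ((T' ^ n).card : ℝ) := by
      exact_mod_cast (Finset.card_pos.2 ⟨1, hT'.one_mem_pow n⟩)
    have h2 : (0 : ℝ) < ((S ^ (F * n + 1)).card : ℝ) := by
      exact_mod_cast (hne.pow).card_pos
    show Real.log ((T' ^ n).card : ℝ) ≤ Real.log 2 + Real.log ((S ^ (F * n + 1)).card : ℝ)
    rw [← Real.log_mul (by norm_num) h2.ne']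
    apply Real.log_le_log h1
    exact_mod_cast hcard n
  have hF' : (0 : ℝ) < F := by exact_mod_cast hF
  rw [hcast]
  have h9 : (1 / 352) * min 1 (Real.log ((minpoly ℤ lam).map (Int.castRingHom ℂ)).mahlerMeasure) ≤
      F * ρ := hl4.trans hle
  have e : (1 / (352 * (F : ℝ))) *
      min 1 (Real.log ((minpoly ℤ lam).map (Int.castRingHom ℂ)).mahlerMeasure) =
      ((1 / 352) * min 1 (Real.log ((minpoly ℤ lam).map (Int.castRingHom ℂ)).mahlerMeasure)) / F := by
    field_simp
  rw [e, div_le_iff₀ hF']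
  linarith [mul_comm (F : ℝ) ρ]

theorem vn_of_bij {P P' : Type*} [Group P] [Group P'] (f : P →* P') (hi : Function.Injective f)
    (hs : Function.Surjective f) (h : ∃ M : Subgroup P', M.FiniteIndex ∧ Group.IsNilpotent M) :
    ∃ M : Subgroup P, M.FiniteIndex ∧ Group.IsNilpotent M := by
  obtain ⟨M, hM, hn⟩ := h
  refine ⟨M.comap f, ⟨?_⟩, ?_⟩
  · rw [Subgroup.index_comap_of_surjective M hs]
    exact hM.index_ne_zero
  · refine Subgroup.isNilpotent_of_ker_le_center (f.subgroupComap M) ?_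
    intro x hx
    have h1 : x = 1 := by
      apply Subtype.ext
      apply hi
      have h2 : ((f.subgroupComap M x : M) : P') = 1 := by
        rw [MonoidHom.mem_ker.1 hx]
        rfl
      rw [Subgroup.coe_one, map_one]
      exact h2
    rw [h1]
    exact Subgroup.one_mem _

theorem quot_two {H : Type*} [Group H] : derivedSeries (H ⧸ derivedSeries H 2) 2 = ⊥ := by
  rw [← map_derivedSeries_eq (f := QuotientGroup.mk' (derivedSeries H 2))
    (QuotientGroup.mk'_surjective _) 2, Subgroup.map_eq_bot_iff, QuotientGroup.ker_mk']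

theorem quot_three {H : Type*} [Group H] : derivedSeries (H ⧸ derivedSeries H 2) 3 = ⊥ := by
  have h := derivedSeries_antitone (G := H ⧸ derivedSeries H 2) (show 2 ≤ 3 by norm_num)
  rw [quot_two] at h
  exact le_bot_iff.1 h

theorem not_vn_quot_quot {H : Type*} [Group H]
    (h : ¬ ∃ K : Subgroup (H ⧸ derivedSeries H 2), K.FiniteIndex ∧ Group.IsNilpotent K) :
    ¬ ∃ K : Subgroup ((H ⧸ derivedSeries H 2) ⧸ derivedSeries (H ⧸ derivedSeries H 2) 2),
      K.FiniteIndex ∧ Group.IsNilpotent K := by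
  intro hc
  apply h
  refine vn_of_bij (QuotientGroup.mk' (derivedSeries (H ⧸ derivedSeries H 2) 2)) ?_
    (QuotientGroup.mk'_surjective _) hc
  rw [← MonoidHom.ker_eq_bot_iff, QuotientGroup.ker_mk', quot_two]

/-- The final form, with P. Hall's theorem as a hypothesis. -/
theorem final_two
    (hall : ∀ (P : Type w) [Group P], Group.IsNilpotent (commutator P) →
      (¬ ∃ K : Subgroup P, K.FiniteIndex ∧ Group.IsNilpotent K) →
      ¬ ∃ K : Subgroup (P ⧸ derivedSeries P 2), K.FiniteIndex ∧ Group.IsNilpotent K)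
    {Γ : Type u} [Group Γ] [DecidableEq Γ] (S : Finset Γ)
    (hsymm : ∀ s ∈ S, s⁻¹ ∈ S) {Q : Type v} [Group Q]
    (φ : Subgroup.closure (S : Set Γ) →* Q) (hφ : Function.Surjective φ) (H : Subgroup Q) (f : ℕ)
    (hf : 0 < f) (hH : H.index = f) {P : Type w} [Group P] (θ : H →* P)
    (hθ : Function.Surjective θ)
    (h : (derivedSeries P 3 = ⊥ ∧
        ((¬ ∃ M : Subgroup (commutator P), M.FiniteIndex ∧ Group.IsNilpotent M) ∨
          ¬ ∃ M : Subgroup (P ⧸ derivedSeries P 2), M.FiniteIndex ∧ Group.IsNilpotent M)) ∨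
      (Group.IsNilpotent (commutator P) ∧
        ¬ ∃ M : Subgroup P, M.FiniteIndex ∧ Group.IsNilpotent M)) :
    ∃ ρ : ℝ, Tendsto (fun n : ℕ => Real.log ((S ^ n).card : ℝ) / n) atTop (𝓝 ρ) ∧
      ∃ lam : ℂ, lam ≠ 0 ∧ IsIntegral ℤ lam ∧ IsIntegral ℤ lam⁻¹ ∧
        (∀ k : ℕ, 0 < k → lam ^ k ≠ 1) ∧
        (1 / (352 * (2 * f - 1))) *
          min 1 (Real.log ((minpoly ℤ lam).map (Int.castRingHom ℂ)).mahlerMeasure) ≤ ρ := by
  rcases h with ⟨h3, hnv⟩ | ⟨hn, hv⟩
  · exact final_fi S hsymm φ hφ H f hf hH θ hθ h3 hnv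
  · exact final_fi S hsymm φ hφ H f hf hH ((QuotientGroup.mk' (derivedSeries P 2)).comp θ)
      ((QuotientGroup.mk'_surjective _).comp hθ) quot_three
      (Or.inr (not_vn_quot_quot (hall P hn hv)))

end Pool.Agent.Helper94.GA
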