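import Pool.Agent.Helper94.GA.Goals

/-!
# Assembly of the final statement from the packets
-/

namespace Pool.Agent.Helper94.GA

open Finset Pointwise Filter Topology
open scoped ComplexOrder commutatorElement
open Pool.Agent.Helper11.Gap

universe u v w

theorem one_le_mah {K : Type u} [Field K] {α : K} (h : IsIntegral ℤ α) : 1 ≤ mah α := by
  unfold mah
  apply Polynomial.one_le_mahlerMeasure_of_one_le_norm_leadingCoeff
  have h1 : ((minpoly ℤ α).map (Int.castRingHom ℂ)).Monic := (minpoly.monic h).map _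
  rw [h1.leadingCoeff]
  simp

theorem min_nonneg' {K : Type u} [Field K] {α : K} (h : IsIntegral ℤ α) :
    0 ≤ min 1 (Real.log (mah α)) :=
  le_min zero_le_one (Real.log_nonneg (one_le_mah h))

/-- The affine representation of a group which is abelian by abelian and not virtually
nilpotent. -/
theorem exists_affine (hUNI : UNI_stmt.{v}) (hJNT : JNT_stmt.{v}) (hAFF : AFF_stmt.{v})
    (H : Type v) [Group H] (hfg : Group.FG H) (A : Subgroup H) (hN : A.Normal)
    (hab : ∀ a ∈ A, ∀ b ∈ A, a * b = b * a) (hA : A.FG) (hc : commutator H ≤ A) (hv : ¬ VN H) :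
    ∃ χ β : H → AlgebraicClosure ℚ, χ 1 = 1 ∧ (∀ a b, χ (a * b) = χ a * χ b) ∧
      (∀ a b, β (a * b) = β a + χ a * β b) ∧ (∃ n, ∀ k : ℕ, 0 < k → χ n ^ k ≠ 1) ∧
      (∀ z, ∃ n, χ n * z + β n ≠ z) ∧ ∀ n, IsIntegral ℤ (χ n) := by
  obtain ⟨n₀, μ, f, hf, hf0, hfe, hμ⟩ := hUNI H hfg A hN hab hA hc hv
  obtain ⟨χ, f', hf', hf0', hfe', hχ⟩ := hJNT H A hN hab hA hc n₀ μ f hf hf0 hfe
  have hne : χ n₀ ≠ 1 := by
    rw [hχ]
    simpa using hμ 1 one_pos
  obtain ⟨h1, hmul, hint, β, hβ, hfix⟩ := hAFF H A hN hab hA hc χ f' n₀ hf' hf0' hfe' hne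
  exact ⟨χ, β, h1, hmul, hβ, ⟨n₀, by rw [hχ]; exact hμ⟩, hfix, hint⟩

theorem algebraic_closure_isAlgebraic : Algebra.IsAlgebraic ℚ (AlgebraicClosure ℚ) := by
  have h := AlgebraicClosure.isAlgebraic ℚ
  have e : (DivisionRing.toRatAlgebra : Algebra ℚ (AlgebraicClosure ℚ)) =
      AlgebraicClosure.instAlgebra ℚ := Subsingleton.elim _ _
  rw [e]
  exact h

theorem VN.of_subsingleton (H : Type u) [Group H] [Subsingleton H] : VN H :=
  ⟨⊤, inferInstance, inferInstance⟩

theorem vn_of_surj_empty {Q : Type v} [Group Q] (h : Subsingleton Q) : VN (commutator Q) ∧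
    VN (Q ⧸ derivedSeries Q 2) := by
  constructor
  · exact VN.of_subsingleton _
  · have : Subsingleton (Q ⧸ derivedSeries Q 2) := by
      refine ⟨fun a b => ?_⟩
      obtain ⟨a, rfl⟩ := QuotientGroup.mk_surjective a
      obtain ⟨b, rfl⟩ := QuotientGroup.mk_surjective b
      rw [Subsingleton.elim a b]
    exact VN.of_subsingleton _

theorem fg_of_map_subtype {G : Type u} [Group G] {N : Subgroup G} {A : Subgroup N}
    (h : (A.map N.subtype).FG) : A.FG := by
  rw [← Group.fg_iff_subgroup_fg] at h ⊢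
  exact Group.fg_of_surjective (f := (A.equivMapOfInjective N.subtype
    N.subtype_injective).symm.toMonoidHom) (MulEquiv.surjective _)

theorem derived_one (G : Type u) [Group G] : derivedSeries G 1 = commutator G := by
  rw [derivedSeries_succ, derivedSeries_zero]; rfl

theorem derived_two (G : Type u) [Group G] :
    derivedSeries G 2 = ⁅commutator G, commutator G⁆ := by
  rw [derivedSeries_succ, derived_one]

theorem map_commutator_commutator (G : Type u) [Group G] :
    (commutator (commutator G)).map (commutator G).subtype = derivedSeries G 2 := by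
  rw [derived_two, commutator_def (commutator G), Subgroup.map_commutator, ← MonoidHom.range_eq_map,
    Subgroup.range_subtype]

/-- The affine representation of the derived subgroup. -/
theorem exists_affRep (hUNI : UNI_stmt.{v}) (hJNT : JNT_stmt.{v}) (hAFF : AFF_stmt.{v})
    (hPCFG : PCFG_stmt.{v}) (Q : Type v) [Group Q] (h3 : derivedSeries Q 3 = ⊥)
    (hp : IsPolycyclic Q) (hv : ¬ VN (commutator Q)) :
    ∃ R : AffRep (commutator Q) (AlgebraicClosure ℚ),
      (∃ n ∈ commutator Q, ∀ k : ℕ, 0 < k → R.χ n ^ k ≠ 1) ∧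
      (∀ z, ∃ n ∈ commutator Q, R.act n z ≠ z) ∧
      ∀ n ∈ commutator Q, IsIntegral ℤ (R.χ n) := by
  classical
  have hfg : Group.FG (commutator Q) := (Group.fg_iff_subgroup_fg _).2 (hPCFG Q hp _)
  have hA : (commutator (commutator Q)).FG := fg_of_map_subtype (hPCFG Q hp _)
  have hab : ∀ a ∈ commutator (commutator Q), ∀ b ∈ commutator (commutator Q),
      a * b = b * a := by
    intro a ha b hb
    have ha' : (a : Q) ∈ derivedSeries Q 2 := by
      rw [← map_commutator_commutator]; exact ⟨a, ha, rfl⟩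
    have hb' : (b : Q) ∈ derivedSeries Q 2 := by
      rw [← map_commutator_commutator]; exact ⟨b, hb, rfl⟩
    have hcomm : ⁅(a : Q), (b : Q)⁆ ∈ derivedSeries Q 3 := by
      rw [derivedSeries_succ]
      exact Subgroup.commutator_mem_commutator ha' hb'
    rw [h3, Subgroup.mem_bot, commutatorElement_eq_one_iff_mul_comm] at hcomm
    exact Subtype.ext hcomm
  obtain ⟨χ, β, h1, hmul, hβ, ⟨n₀, hn₀⟩, hfix, hint⟩ := exists_affine hUNI hJNT hAFF
    (commutator Q) hfg (commutator (commutator Q)) inferInstance hab hA le_rfl hv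
  refine ⟨⟨fun g => if h : g ∈ commutator Q then χ ⟨g, h⟩ else 1,
    fun g => if h : g ∈ commutator Q then β ⟨g, h⟩ else 0, ?_, ?_, ?_⟩, ⟨n₀, n₀.2, ?_⟩, ?_, ?_⟩
  · rw [dif_pos (Subgroup.one_mem _)]; exact h1
  · intro a ha b hb
    rw [dif_pos ha, dif_pos hb, dif_pos (Subgroup.mul_mem _ ha hb)]
    exact hmul ⟨a, ha⟩ ⟨b, hb⟩
  · intro a ha b hb
    rw [dif_pos ha, dif_pos hb, dif_pos (Subgroup.mul_mem _ ha hb), dif_pos ha]
    exact hβ ⟨a, ha⟩ ⟨b, hb⟩
  · intro k hk
    simp only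
    rw [dif_pos n₀.2]
    exact hn₀ k hk
  · intro z
    obtain ⟨n, hn⟩ := hfix z
    refine ⟨n, n.2, ?_⟩
    simp only [AffRep.act]
    rw [dif_pos n.2, dif_pos n.2]
    exact hn
  · intro n hn
    simp only
    rw [dif_pos hn]
    exact hint _

/-- Assembly. -/
theorem FINAL (hGOLD : GOLD_stmt) (hCAST : CAST_stmt.{0}) (hCMB : CMB_stmt.{v, 0})
    (hFIN2 : FIN2_stmt.{v, 0}) (hMET : MET_stmt.{v, 0}) (hPCFG : PCFG_stmt.{v})
    (hUNI : UNI_stmt.{v}) (hJNT : JNT_stmt.{v}) (hAFF : AFF_stmt.{v})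
    (hRATE : RATE_stmt.{u, v}) : FINAL_stmt.{u, v} := by
  intro Γ _ _ S hsymm Q _ φ hφ h3 hnv
  classical
  by_cases hp : IsPolycyclic Q
  swap
  · obtain ⟨ρ, hρ, hle⟩ := main_quotient S hsymm φ hφ h3 hp
    obtain ⟨lam, h0, h1, h2, h4, h5⟩ := hGOLD
    refine ⟨ρ, hρ, lam, h0, h1, h2, h4, le_trans ?_ hle⟩
    have hm : min 1 (Real.log (mah lam)) ≤ 1 / 2 := (min_le_right _ _).trans h5
    have hl : (0.6931471803 : ℝ) < Real.log 2 := Real.log_two_gt_d9
    norm_num at hl ⊢
    linarith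
  have hne : S.Nonempty := by
    by_contra hemp
    rw [Finset.not_nonempty_iff_eq_empty] at hemp
    have hsub : Subsingleton Q := by
      refine ⟨fun a b => ?_⟩
      obtain ⟨a, rfl⟩ := hφ a
      obtain ⟨b, rfl⟩ := hφ b
      congr 1
      apply Subtype.ext
      have ha := a.2
      have hb := b.2
      subst hemp
      simp only [Finset.coe_empty, Subgroup.closure_empty, Subgroup.mem_bot] at ha hb
      rw [ha, hb]
    have := vn_of_surj_empty hsub
    rcases hnv with h | h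
    · exact h this.1
    · exact h this.2
  obtain ⟨ρ, hρ⟩ := exists_rate S hne
  refine ⟨ρ, hρ, ?_⟩
  -- the generating set of the quotient
  let C := Subgroup.closure (S : Set Γ)
  set T₀ : Finset C := Finset.subtype (fun x => x ∈ C) (insert 1 S) with hT₀def
  have hT₀mem : ∀ x : C, x ∈ T₀ ↔ (x : Γ) = 1 ∨ (x : Γ) ∈ S := by
    intro x
    rw [hT₀def, Finset.mem_subtype, Finset.mem_insert]
  have hT₀sym : Sym T₀ := by
    constructor
    · rw [hT₀mem]; exact Or.inl rfl
    · intro x hx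
      rw [hT₀mem] at hx ⊢
      rcases hx with hx | hx
      · left; rw [Subgroup.coe_inv, hx, inv_one]
      · right; exact hsymm _ hx
  have hgen₀ : Subgroup.closure (T₀ : Set C) = ⊤ := by
    rw [eq_top_iff, ← Subgroup.closure_closure_coe_preimage (k := (S : Set Γ))]
    apply Subgroup.closure_mono
    intro x hx
    rw [Finset.mem_coe, hT₀mem]
    exact Or.inr hx
  have himage : ∀ {P : Type v} [Group P] [DecidableEq P] (ψ : C →* P),
      Function.Surjective ψ → Sym (T₀.image ψ) ∧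
        Subgroup.closure ((T₀.image ψ : Finset P) : Set P) = ⊤ ∧
        (∀ y ∈ T₀.image ψ, ∃ z : C, ((z : Γ) = 1 ∨ (z : Γ) ∈ S) ∧ ψ z = y) := by
    intro P _ _ ψ hψ
    refine ⟨⟨?_, ?_⟩, ?_, ?_⟩
    · exact Finset.mem_image.2 ⟨1, hT₀sym.one, map_one _⟩
    · intro y hy
      obtain ⟨x, hx, rfl⟩ := Finset.mem_image.1 hy
      exact Finset.mem_image.2 ⟨x⁻¹, hT₀sym.inv x hx, map_inv _ _⟩
    · rw [Finset.coe_image, ← MonoidHom.map_closure, hgen₀, Subgroup.map_top_of_surjective ψ hψ]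
    · intro y hy
      obtain ⟨x, hx, rfl⟩ := Finset.mem_image.1 hy
      exact ⟨x, (hT₀mem x).1 hx, rfl⟩
  have halg := algebraic_closure_isAlgebraic
  rcases hnv with hv | hv
  · obtain ⟨R, H1, H2, H3⟩ := exists_affRep hUNI hJNT hAFF hPCFG Q h3 hp hv
    obtain ⟨hTs, hTg, hTm⟩ := himage φ hφ
    obtain ⟨P⟩ := hCMB Q (AlgebraicClosure ℚ) (T₀.image φ) hTs hTg R H1 H2
    obtain ⟨n, hn, hn1, hgrow⟩ := hFIN2 Q (AlgebraicClosure ℚ) halg (T₀.image φ) R H3
      ⟨1, hTs.one⟩ P
    have hD := P.hD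
    have hD' : (0 : ℝ) < (P.D : ℝ) := by exact_mod_cast hD
    have hm0 : 0 ≤ min 1 (Real.log (mah (R.χ n))) := min_nonneg' (H3 n hn)
    have hrate := hRATE Γ S hne hsymm Q φ (T₀.image φ) hTm (22 * P.D)
      (((P.D : ℝ) / 16) * min 1 (Real.log (mah (R.χ n)))) ρ (by omega) (by positivity) hgrow hρ
    have hinv : IsIntegral ℤ (R.χ n)⁻¹ := by
      rw [← R.χ_inv hn]
      exact H3 _ (Subgroup.inv_mem _ hn)
    have hne0 : R.χ n ≠ 0 := R.χ_ne_zero hn
    obtain ⟨lam, l0, l1, l2, l3, l4⟩ := hCAST (AlgebraicClosure ℚ) halg (R.χ n) hne0 (H3 n hn)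
      hinv hn1
    refine ⟨lam, l0, l1, l2, l3, ?_⟩
    rw [l4]
    refine le_trans (le_of_eq ?_) hrate
    push_cast
    field_simp
    ring
  · -- metabelian
    set G₂ := Q ⧸ derivedSeries Q 2 with hG₂
    have hp₂ : IsPolycyclic G₂ := hp.of_surjective (QuotientGroup.mk' _)
      (QuotientGroup.mk'_surjective _)
    have hfg : Group.FG G₂ := by
      have := hPCFG G₂ hp₂ ⊤
      exact Group.fg_def.2 this
    have hab : ∀ a ∈ commutator G₂, ∀ b ∈ commutator G₂, a * b = b * a := by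
      have hbot : derivedSeries G₂ 2 = ⊥ := by
        rw [← map_derivedSeries_eq (QuotientGroup.mk'_surjective (derivedSeries Q 2)),
          Subgroup.map_eq_bot_iff, QuotientGroup.ker_mk']
      intro a ha b hb
      have hcomm : ⁅a, b⁆ ∈ derivedSeries G₂ 2 :=
        (derived_two G₂).ge (Subgroup.commutator_mem_commutator ha hb)
      rw [hbot, Subgroup.mem_bot, commutatorElement_eq_one_iff_mul_comm] at hcomm
      exact hcomm
    obtain ⟨χ, β, h1, hmul, hβ, H1, H2, H3⟩ := exists_affine hUNI hJNT hAFF G₂ hfg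
      (commutator G₂) inferInstance hab (hPCFG G₂ hp₂ _) le_rfl hv
    set ψ : C →* G₂ := (QuotientGroup.mk' (derivedSeries Q 2)).comp φ with hψ
    have hψs : Function.Surjective ψ := (QuotientGroup.mk'_surjective _).comp hφ
    obtain ⟨hTs, hTg, hTm⟩ := himage ψ hψs
    obtain ⟨n, hn1, hgrow⟩ := hMET G₂ (AlgebraicClosure ℚ) halg (T₀.image ψ) hTs hTg χ β h1
      hmul hβ H1 H2 H3
    have hm0 : 0 ≤ min 1 (Real.log (mah (χ n))) := min_nonneg' (H3 n)
    have hrate := hRATE Γ S hne hsymm G₂ ψ (T₀.image ψ) hTm 3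
      ((1 / 8) * min 1 (Real.log (mah (χ n)))) ρ (by omega) (by positivity) hgrow hρ
    have hinv : IsIntegral ℤ (χ n)⁻¹ := by
      have e : (χ n)⁻¹ = χ n⁻¹ := by
        have : χ n * χ n⁻¹ = 1 := by rw [← hmul, mul_inv_cancel, h1]
        exact (eq_inv_of_mul_eq_one_right this).symm
      rw [e]
      exact H3 _
    have hne0 : χ n ≠ 0 := by
      intro h0
      have h5 := hmul n n⁻¹
      rw [mul_inv_cancel, h1, h0, zero_mul] at h5
      exact one_ne_zero h5
    obtain ⟨lam, l0, l1, l2, l3, l4⟩ := hCAST (AlgebraicClosure ℚ) halg (χ n) hne0 (H3 n)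
      hinv hn1
    refine ⟨lam, l0, l1, l2, l3, ?_⟩
    rw [l4]
    refine le_trans ?_ hrate
    push_cast
    linarith

end Pool.Agent.Helper94.GA
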