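import Pool.Agent.Helper11.Gap.Final

/-!
# The growth gap for groups of derived length three whose derived subgroup is not virtually
nilpotent (MP_d69e80_al), statements of the packets

Final theorem: let S be a finite symmetric subset of a group and Q a quotient of ⟨S⟩ with
Q''' = 1 such that Q' or Q/Q'' is not virtually nilpotent.  Then ρ_S exists and there is an
algebraic unit λ, not a root of unity, with ρ_S ≥ (1/352) min(1, log M_λ).

Conventions: universes `u v w`; `C`, `B`, `ι` below are finite types in `Type`.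
All packets are independent of each other: a packet may use another statement as an explicit
hypothesis `(h : XXX_stmt)`.
-/

namespace Pool.Agent.Helper94.GA

open Finset Pointwise Filter Topology
open scoped ComplexOrder
open Pool.Agent.Helper11.Gap

universe u v w

/-! ## Part 1: entropy -/

/-- Shannon entropy (natural logarithm) of `g(U)`, where `U` is uniform on the finite type `Ω`:
`log |Ω| - (1/|Ω|) ∑_ω log #{ω' : g ω' = g ω}`. -/
noncomputable def ent {Ω : Type u} {X : Type v} [Fintype Ω] (g : Ω → X) : ℝ :=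
  Real.log (Fintype.card Ω) -
    (∑ ω, Real.log (Nat.card {ω' // g ω' = g ω})) / Fintype.card Ω

/-- PACKET ENT.  Basic properties.
(1) `0 ≤ ent g`: each multiplicity is at most `|Ω|`.
(2) `ent g ≤ log #(image)`: by concavity of log,
`(1/|Ω|) ∑_ω log (|Ω| / m(ω)) ≤ log ((1/|Ω|) ∑_ω |Ω|/m(ω)) = log #image`
(or use `log x ≤ x - 1`).
(3) if `g` is a function of `f` then the multiplicities of `g` are at least those of `f`. -/
def ENT_stmt : Prop :=
  (∀ (Ω : Type u) (X : Type v) [Fintype Ω] [Nonempty Ω] (g : Ω → X), 0 ≤ ent g) ∧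
  (∀ (Ω : Type u) (X : Type v) [Fintype Ω] [Nonempty Ω] [DecidableEq X] (g : Ω → X),
    ent g ≤ Real.log ((univ.image g).card : ℝ)) ∧
  (∀ (Ω : Type u) (X : Type v) (Y : Type w) [Fintype Ω] [Nonempty Ω] (f : Ω → X) (g : Ω → Y),
    (∀ ω ω', f ω = f ω' → g ω = g ω') → ent g ≤ ent f)

/-- PACKET ENT2.  Two step chain inequality.  Let `[b] = {b' : g b' = g b}` and
`m_{b'}(y) = #{c' : f b' c' = y}`.  The multiplicity of the pair map at `(b,c)` is
`∑_{b' ∈ [b]} m_{b'}(f b c)`.  So the claim is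
`∑_{b,c} log ( ∑_{b' ∈ [b]} m_{b'}(f b c) / (|[b]| m_b(f b c)) ) ≤ 0`.  By `log x ≤ x - 1` the
left side is at most `∑_b (1/|[b]|) ∑_{b' ∈ [b]} ∑_c m_{b'}(f b c)/m_b(f b c) - |B||C|`, and
`∑_c m_{b'}(f b c)/m_b(f b c) = ∑_{y ∈ image of f b} m_{b'}(y) ≤ |C|`. -/
def ENT2_stmt : Prop :=
  ∀ (B : Type u) (C : Type u) (X : Type v) (Y : Type w) [Fintype B] [Fintype C] [Nonempty B]
    [Nonempty C] (g : B → X) (f : B → C → Y),
    ent g + (∑ b, ent (f b)) / Fintype.card B ≤ ent (fun p : B × C => (g p.1, f p.1 p.2))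

/-- PACKET CHN.  Chain inequality over `Fin m` (may assume ENT_stmt and ENT2_stmt in all
universes that are needed).
Proof.  `(X_p)_p` is a function of `F`, so `ent (ω ↦ (X_p ω)_p) ≤ ent F ≤ log #image F`.
It remains to show `∑_p avg_ω ent (b ↦ X_p (update ω p b)) ≤ ent (ω ↦ (X_p ω)_p)` by induction on
`m`.  For `m + 1` write `ω = Fin.snoc ω' b`, fix some `b₀`, apply ENT2 to
`g ω' = (X_{castSucc p} (snoc ω' b₀))_p` (which equals `X_{castSucc p} (snoc ω' b)` for every `b`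
by the dependence hypothesis) and `f ω' b = X_last (snoc ω' b)`, and the induction hypothesis to
`X'_p ω' = X_{castSucc p} (snoc ω' b₀)`. The averages over `Fin (m+1) → B` of quantities that do
not depend on the last coordinate are the averages over `Fin m → B`. -/
def CHN_stmt : Prop :=
  ∀ (B : Type) [Fintype B] [Nonempty B] (m : ℕ) (Y : Type u) (Z : Type v)
    [DecidableEq Y] (F : (Fin m → B) → Y) (X : Fin m → (Fin m → B) → Z),
    (∀ p ω ω', F ω = F ω' → X p ω = X p ω') →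
    (∀ p ω ω', (∀ q ≤ p, ω q = ω' q) → X p ω = X p ω') →
    ∑ p, (∑ ω : Fin m → B, ent (fun b : B => X p (Function.update ω p b))) /
      (Fintype.card B : ℝ) ^ m ≤ Real.log ((univ.image F).card : ℝ)

/-! ## Part 2: the information of one bit -/

/-- PACKET INFO.  `Ω` finite, `b : Ω → Bool` a bit, `Y : Ω → 𝒴` an observation, `f : 𝒴 → ℂ` a test
function, `n(ω) = #{ω' : Y ω' = Y ω}`, `n_b(ω) = #{ω' : Y ω' = Y ω, b ω' = b ω}`.  Then
`∑_ω log (2 n_b(ω)/n(ω)) ≥ (1/2) ‖∑_ω ε(ω) f(Y ω)‖² / ∑_ω ‖f(Y ω)‖²`, `ε = ±1` the sign of the bit.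
Proof.  Group by the value `y` of `Y`; on the fibre of `y`, with `n` elements of which `n₁` have
bit `true` and `n₀` bit `false`, and `m = (n₁ - n₀)/n ∈ [-1,1]`, the left side is
`n₁ log (2n₁/n) + n₀ log (2n₀/n) = n (½(1+m) log(1+m) + ½(1-m) log(1-m)) · 1 ≥ n m²/2`
(scalar inequality `(1+m) log(1+m) + (1-m) log(1-m) ≥ m²` on `[-1,1]`: even function, value and
first derivative zero at 0, second derivative `2/(1-m²) ≥ 2`; at `m = ±1` it reads `2 log 2 ≥ 1`).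
Hence the left side is at least `½ ∑_y (n₁-n₀)²/n`.  And `∑_ω ε f(Y) = ∑_y (n₁-n₀)(y) f(y)`, by
Cauchy-Schwarz `|∑_y (n₁-n₀) f|² ≤ (∑_y (n₁-n₀)²/n) (∑_y n |f|²)`.  (Division by zero is zero; in
that case the right side is 0 and the left side is nonnegative by the above.) -/
def INFO_stmt : Prop :=
  ∀ (Ω : Type) (𝒴 : Type u) [Fintype Ω] (b : Ω → Bool) (Y : Ω → 𝒴) (f : 𝒴 → ℂ),
    (1 / 2) * (‖∑ ω, (if b ω then (1 : ℂ) else -1) * f (Y ω)‖ ^ 2 / ∑ ω, ‖f (Y ω)‖ ^ 2) ≤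
      ∑ ω, Real.log (2 * (Nat.card {ω' // Y ω' = Y ω ∧ b ω' = b ω} : ℝ) /
        Nat.card {ω' // Y ω' = Y ω})

/-- The sum of the digits selected by `δ` in `s`. -/
def dsum {ι : Type} {A : Type u} [AddCommGroup A] (β : ι → A) (s : Finset ι) (δ : ι → Bool) : A :=
  ∑ k ∈ s, if δ k then β k else 0

/-- Entropy of the random sum of the digits in `s`. -/
noncomputable def Dent {ι : Type} [Fintype ι] [DecidableEq ι] {A : Type u} [AddCommGroup A]
    (β : ι → A) (s : Finset ι) : ℝ := ent (dsum β s)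

/-- PACKET VAR.  Second moments of independent bits (`z : ι → ℂ`, `k ∈ s`):
`∑_δ ‖∑_{l ∈ s} (if δ l then z l else 0) - ½ ∑_{l ∈ s} z l‖² = 2^|ι| · ¼ ∑_{l ∈ s} ‖z l‖²` and
`∑_δ ε_k(δ) (∑_{l ∈ s} (if δ l then z l else 0) - ½ ∑_{l ∈ s} z l) = 2^|ι| · ½ z_k`.
(Write the centred sum as `½ ∑_{l ∈ s} ε_l z_l` with signs `ε_l(δ) = ±1`, and
`∑_δ ε_l ε_l' = 2^|ι| [l = l']`.) -/
def VAR_stmt : Prop :=
  ∀ (ι : Type) [Fintype ι] [DecidableEq ι] (z : ι → ℂ) (s : Finset ι),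
    (∑ δ : ι → Bool, ‖dsum z s δ - (1 / 2) * ∑ l ∈ s, z l‖ ^ 2 =
      (2 : ℝ) ^ (Fintype.card ι) * ((1 / 4) * ∑ l ∈ s, ‖z l‖ ^ 2)) ∧
    ∀ k ∈ s, ∑ δ : ι → Bool, (if δ k then (1 : ℂ) else -1) *
      (dsum z s δ - (1 / 2) * ∑ l ∈ s, z l) = (2 : ℂ) ^ (Fintype.card ι) * ((1 / 2) * z k)

/-- PACKET INC (may assume INFO_stmt and VAR_stmt).  Adding a digit `k ∉ s` increases the entropy by
at least `½ ‖φ β_k‖² / ∑_{l ∈ insert k s} ‖φ β_l‖²` for every additive `φ : A → ℂ`.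
Proof.  Let `X = dsum β s`, `Y = dsum β (insert k s)`, `Ω = ι → Bool`, `b δ = δ k`.  For every `δ`:
`#{δ' : Xδ' = Xδ} = 2 #{δ' : Yδ' = Yδ, δ'_k = δ_k}`: on `{δ'_k = δ_k}` the conditions `Yδ' = Yδ` and
`Xδ' = Xδ` are equivalent, and `X` does not depend on `δ'_k` (`k ∉ s`), so flipping `δ'_k` is a
bijection of `{Xδ' = Xδ, δ'_k = δ_k}` with `{Xδ' = Xδ, δ'_k ≠ δ_k}`.  Hence
`Dent (insert k s) - Dent s = (1/|Ω|) ∑_δ (log m_X(δ) - log m_Y(δ)) = (1/|Ω|) ∑_δ log(2 n_b/n)`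
in the notation of INFO, which is applied to `Y` and `f y = φ y - ½ ∑_{l ∈ insert k s} φ β_l`;
then VAR with `z = φ ∘ β` and the set `insert k s` (note `φ (dsum β s δ) = dsum (φ ∘ β) s δ`,
`|Ω| = 2^|ι|`). -/
def INC_stmt : Prop :=
  ∀ (ι : Type) [Fintype ι] [DecidableEq ι] (A : Type u) [AddCommGroup A] (β : ι → A)
    (s : Finset ι) (k : ι), k ∉ s → ∀ φ : A →+ ℂ,
    Dent β s + (1 / 2) * (‖φ (β k)‖ ^ 2 / ∑ l ∈ insert k s, ‖φ (β l)‖ ^ 2) ≤
      Dent β (insert k s)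

/-! ## Part 3: random environments -/

/-- The average over the environments `c : Fin n → C` of the entropy of
`δ ↦ ∑_k δ_k α^k x(c_k)`. -/
noncomputable def avgEnt {K : Type u} [Field K] {C : Type} [Fintype C] (α : K)
    (x : C → K) (n : ℕ) : ℝ :=
  (∑ c : Fin n → C, ent (fun δ : Fin n → Bool =>
    ∑ k, if δ k then α ^ (k : ℕ) * x (c k) else 0)) / (Fintype.card C : ℝ) ^ n

/-- PACKET AVG (may assume INC_stmt).  Let `e 0, e 1, …, e (m-1)` be distinct pairs in `Fin n × C`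
and `φ j : K → ℂ` additive.  Put `S_j = ‖φ_j(α^k x_c)‖²` for `e j = (k,c)` and
`N_j = (1/|C|) ∑_{i<j} ‖φ_j(α^{k'} x_{c'})‖²` (`e i = (k',c')`).  Then
`avgEnt α x n ≥ (1/|C|) ∑_j ½ S_j/(S_j+N_j)`.
Proof.  For an environment `c` let `β_k = α^k x(c_k)` and
`s_j(c) = {k : ∃ i < j, e i = (k, c_k)}`.  With `e j = (k,a)`: `s_{j+1}(c) = s_j(c)` if `c_k ≠ a`,
and `s_{j+1}(c) = insert k (s_j(c))` with `k ∉ s_j(c)` if `c_k = a` (injectivity of `e`).  By INC
with `φ_j`, `Dent β (s_{j+1}(c)) - Dent β (s_j(c)) ≥ [c_k = a] ½ S_j/(S_j + Z_j(c))`,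
`Z_j(c) = ∑_{i<j} [c_{k_i} = a_i] ‖φ_j(α^{k_i} x_{a_i})‖²` where `e i = (k_i,a_i)`.  Over the
`|C|^(n-1)` environments with `c_k = a` the average of `Z_j` is at most `N_j`: a pair `i` with
`k_i ≠ k` is visible for a fraction `1/|C|` of them, a pair with `k_i = k` has `a_i ≠ a` and is never
visible.  By convexity of `z ↦ 1/(S+z)` (tangent line at `N_j`:
`S/(S+z) ≥ S/(S+N_j) - S (z-N_j)/(S+N_j)²`, `S > 0`; trivial if `S = 0`) the average of
`S_j/(S_j+Z_j)` over them is at least `S_j/(S_j+N_j)`.  Sum over `j`.  Finally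
`Dent β univ ≥ Dent β s` for every `s` (INC with `φ = 0`), `Dent β ∅ ≥ 0`, and
`Dent β univ` is the entropy in `avgEnt`. -/
def AVG_stmt : Prop :=
  ∀ (K : Type u) [Field K] (C : Type) [Fintype C] [Nonempty C] (α : K)
    (x : C → K) (n m : ℕ) (e : Fin m → Fin n × C) (φ : Fin m → (K →+ ℂ)),
    Function.Injective e →
    (1 / (Fintype.card C : ℝ)) * ∑ j, (1 / 2) *
      (‖φ j (α ^ ((e j).1 : ℕ) * x (e j).2)‖ ^ 2 /
        (‖φ j (α ^ ((e j).1 : ℕ) * x (e j).2)‖ ^ 2 + (1 / (Fintype.card C : ℝ)) *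
          ∑ i ∈ univ.filter (fun i => i < j), ‖φ j (α ^ ((e i).1 : ℕ) * x (e i).2)‖ ^ 2)) ≤
      avgEnt α x n

/-- PACKET BIG (may assume AVG_stmt).  One embedding `σ` with `‖σ α‖ ≥ 2`.
Proof.  Let `r = ‖σ α‖`, `size (k,c) = r^k ‖σ (x c)‖ > 0`.  Enumerate all `m = n |C|` pairs by
non-decreasing size, `φ_j = σ`.  Then `S_j = size_j²` and
`N_j ≤ (1/|C|) ∑_{c'} ∑_{k' : size(k',c') ≤ size_j} size(k',c')² ≤ (1/|C|) |C| S_j/(1-r^(-2)) ≤
(4/3) S_j`, so every term is at least `½ · 3/7` and the sum is at least `(1/|C|) n |C| · 3/14`. -/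
def BIG_stmt : Prop :=
  ∀ (K : Type u) [Field K] (C : Type) [Fintype C] [Nonempty C] (α : K)
    (x : C → K), (∀ c, x c ≠ 0) → ∀ σ : K →+* ℂ, 2 ≤ ‖σ α‖ → ∀ n : ℕ,
    (3 / 14) * (n : ℝ) ≤ avgEnt α x n

/-! ## Part 4: the greedy scheme -/

/-- PACKET DET.  For `A` positive definite and `P` positive semidefinite,
`det (A + P) ≥ det A (1 + tr (A⁻¹ P)) `.
Proof.  `A = R²` with `R` positive definite (or `A = Rᴴ R`), `A + P = R (1 + T) R`,
`T = R⁻¹ P R⁻¹` positive semidefinite with eigenvalues `σ_i ≥ 0`,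
`det (1+T) = ∏ (1+σ_i) ≥ 1 + ∑ σ_i = 1 + tr T`, `tr T = tr (A⁻¹ P)`. -/
def DET_stmt : Prop :=
  ∀ (e : ℕ) (A P : Matrix (Fin e) (Fin e) ℂ), A.PosDef → P.PosSemidef →
    0 < A.det.re ∧ A.det.im = 0 ∧ 0 ≤ (A⁻¹ * P).trace.re ∧
    A.det.re * (1 + (A⁻¹ * P).trace.re) ≤ (A + P).det.re

/-- The quadratic form `w* N⁻¹ w`. -/
noncomputable def qa {e : ℕ} (N : Matrix (Fin e) (Fin e) ℂ) (z : Fin e → ℂ) : ℝ :=
  (star z ⬝ᵥ (N⁻¹.mulVec z)).re

/-- PACKET RK1.  Rank one update (matrix determinant lemma) for `A` positive definite, `p ≥ 0`. -/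
def RK1_stmt : Prop :=
  ∀ (e : ℕ) (A : Matrix (Fin e) (Fin e) ℂ), A.PosDef → ∀ (z : Fin e → ℂ) (p : ℝ), 0 ≤ p →
    0 ≤ qa A z ∧ (A + (p : ℂ) • Matrix.vecMulVec z (star z)).PosDef ∧
    (A + (p : ℂ) • Matrix.vecMulVec z (star z)).det.re = A.det.re * (1 + p * qa A z)

/-- The vector `Λ^l v_c`. -/
def wv {e : ℕ} {C : Type} (lam : Fin e → ℂ) (v : C → Fin e → ℂ) (c : C) (l : ℕ) : Fin e → ℂ :=
  fun j => lam j ^ l * v c j

/-- `N(t) = s + (1/|C|) ∑_c ∑_{l < t_c} (Λ^l v_c)(Λ^l v_c)*`. -/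
noncomputable def Nm {e : ℕ} {C : Type} [Fintype C] (lam : Fin e → ℂ) (v : C → Fin e → ℂ) (s : ℝ)
    (t : C → ℕ) : Matrix (Fin e) (Fin e) ℂ :=
  (s : ℂ) • (1 : Matrix (Fin e) (Fin e) ℂ) + ∑ c, ∑ l ∈ range (t c),
    ((1 / (Fintype.card C : ℝ) : ℝ) : ℂ) •
      Matrix.vecMulVec (wv lam v c l) (star (wv lam v c l))

/-- PACKET GRD1 (may assume DET_stmt, RK1_stmt).  For `s` large some `c` is always eligible.
Proof.  `Λ = diagonal lam`, `M = ∏ ‖lam j‖`.  Choose `s > 0` with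
`s (‖lam j‖² - 1) ≥ (1/|C|) ∑_c ‖v_c‖²` (sum of squares of the entries) for all `j`.  Let `t+1` be `t`
with all entries increased by one.  Then `P = Λ N(t) Λ* - N(t+1) = s (ΛΛ* - 1) - (1/|C|) ∑_c v_c v_c*`
is positive semidefinite (since `v v* ≤ ‖v‖² 1`), so by DET
`det N(t+1) ≤ det (Λ N(t) Λ*) = M² det N(t)`.  On the other hand
`N(t+1) = N(t) + (1/|C|) ∑_c w_c w_c*`, `w_c = Λ^{t_c} v_c`, so by DET
`det N(t+1) ≥ det N(t) (1 + (1/|C|) ∑_c w_c* N(t)⁻¹ w_c)`.  So the average over `c` of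
`qa (N t) (w_c)` is at most `M² - 1`. -/
def GRD1_stmt : Prop :=
  ∀ (e : ℕ) (C : Type) [Fintype C] [Nonempty C] (lam : Fin e → ℂ) (v : C → Fin e → ℂ),
    (∀ j, 1 < ‖lam j‖) → ∃ s : ℝ, 0 < s ∧ ∀ t : C → ℕ, ∃ c,
      qa (Nm lam v s t) (wv lam v c (t c)) ≤ (∏ j, ‖lam j‖) ^ 2 - 1

/-- PACKET GRD2.  Types which are late are eligible.
Proof.  General fact (Q): if `N` is positive definite, `N - p ∑_{i<e} y_i y_i*` is positive
semidefinite (`p > 0`) and `z = ∑_i γ_i y_i`, then `qa N z ≤ (1/p) ∑_i |γ_i|²`: with `ψ = N⁻¹ z`,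
`qa N z = ψ* N ψ = |ψ* z|` and
`|ψ* z|² ≤ ∑ |γ_i|² ∑ |ψ* y_i|² ≤ ∑ |γ_i|² (1/p) ψ* N ψ`.
Fix `c, c'`.  The vectors `Λ^i v_{c'}`, `i < e`, form a basis of `ℂ^e` (Vandermonde, `lam` injective,
entries of `v_{c'}` nonzero); let `γ(m)` be the coordinates of `Λ^(-m) v_c` in it; `γ(m) → 0` as
`m → ∞` because `‖lam j‖ > 1`.  Let `m₀` be such that `|C| ∑ |γ_i(m)|² ≤ M² - 1` for all `m ≥ m₀` and
all the finitely many pairs `c, c'` (`M > 1` since `e > 0`), `L = m₀ + e + 1`.  If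
`t c + L ≤ t c'` then with `m = t c' - e - t c ≥ m₀`:
`Λ^{t c} v_c = ∑_i γ_i(m) Λ^{t c' - e + i} v_{c'}` and the vectors `Λ^{t c' - e + i} v_{c'}` are among
the terms of `N(t)`; apply (Q) with `p = 1/|C|`. -/
def GRD2_stmt : Prop :=
  ∀ (e : ℕ) (C : Type) [Fintype C] [Nonempty C] (lam : Fin e → ℂ) (v : C → Fin e → ℂ), 0 < e →
    Function.Injective lam → (∀ j, 1 < ‖lam j‖) → (∀ c j, v c j ≠ 0) → ∀ s : ℝ, 0 < s →
    ∃ L : ℕ, 1 ≤ L ∧ ∀ (t : C → ℕ) (c c' : C), t c + L ≤ t c' →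
      qa (Nm lam v s t) (wv lam v c (t c)) ≤ (∏ j, ‖lam j‖) ^ 2 - 1

/-- PACKET GRD3 (pure combinatorics).  The greedy path.
Proof.  Starting from `t = 0`, at each step choose among the eligible `c` one with `t c` minimal and
increase `t c` by one; stop when some `t c` equals `n` (`n = 0`: no step).  This happens after
finitely many steps since `∑ t` increases.  Invariant: `max t ≤ min t + L`: if the step at `c` does
not increase the maximum this is clear; if it does, then `t c` was the maximum, and there is no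
`c₁` with `t c₁ + L ≤ t c` (such a `c₁` would be eligible with `t c₁ < t c`, as `L ≥ 1`), so
`min t + L ≥ max t + 1`.  At the end the maximum is `n`. -/
def GRD3_stmt : Prop :=
  ∀ (C : Type) [Fintype C] [Nonempty C] [DecidableEq C] (Elig : (C → ℕ) → C → Prop) (L : ℕ),
    1 ≤ L → (∀ t, ∃ c, Elig t c) → (∀ (t : C → ℕ) (c c' : C), t c + L ≤ t c' → Elig t c) →
    ∀ n : ℕ, ∃ (m : ℕ) (t : ℕ → C → ℕ) (c : ℕ → C), (∀ a, t 0 a = 0) ∧
      (∀ i < m, Elig (t i) (c i)) ∧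
      (∀ i < m, t (i + 1) = Function.update (t i) (c i) (t i (c i) + 1)) ∧
      (∀ i < m, t i (c i) < n) ∧ (∀ a, n ≤ t m a + L)

/-- PACKET GRD5 (may assume DET_stmt).  Lower bound for the determinant.
Proof.  If `k ≥ e` and `k ≤ t c` for all `c`, then for a fixed `c`,
`N(t) - (1/|C|) Λ^(k-e) (∑_{i<e} Λ^i v_c v_c* Λ^{i*}) Λ^(k-e)*` is positive definite (it contains
`s 1`); `∑_{i<e} Λ^i v_c (Λ^i v_c)* = V V*` where `V` has columns `Λ^i v_c`, `|det V| > 0` by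
Vandermonde (`lam` injective, nonzero entries).  With `Λ^(k-e) V V* Λ^(k-e)* (1/|C|)` positive
definite, DET (as monotonicity of det) gives
`det N(t) ≥ |C|^(-e) M^(2(k-e)) |det V|²`.  If `k < e`, `det N(t) ≥ s^e ≥ s^e M^(2(k-e))`. -/
def GRD5_stmt : Prop :=
  ∀ (e : ℕ) (C : Type) [Fintype C] [Nonempty C] (lam : Fin e → ℂ) (v : C → Fin e → ℂ),
    Function.Injective lam → (∀ j, 1 < ‖lam j‖) → (∀ c j, v c j ≠ 0) → ∀ s : ℝ, 0 < s →
    ∃ κ : ℝ, 0 < κ ∧ ∀ (k : ℕ) (t : C → ℕ), (∀ c, k ≤ t c) →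
      κ * (∏ j, ‖lam j‖) ^ (2 * k) ≤ (Nm lam v s t).det.re

/-- PACKET GRDF.  The optimal functional.  With `N = N(t)`, `z` any vector, `ψ = N⁻¹ z`,
`a = qa N z`: `ψ* z = a` (a nonnegative real), and
`(1/|C|) ∑_{c'} ∑_{l < t c'} |ψ* Λ^l v_{c'}|² = ψ* (N - s) ψ ≤ ψ* N ψ = a`.  Also `N(t)` is positive
definite for `s > 0`, and `a > 0` if `z ≠ 0`. -/
def GRDF_stmt : Prop :=
  ∀ (e : ℕ) (C : Type) [Fintype C] [Nonempty C] (lam : Fin e → ℂ) (v : C → Fin e → ℂ) (s : ℝ),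
    0 < s → ∀ (t : C → ℕ) (z : Fin e → ℂ),
      (Nm lam v s t).PosDef ∧
      star ((Nm lam v s t)⁻¹.mulVec z) ⬝ᵥ z = (qa (Nm lam v s t) z : ℂ) ∧
      (z ≠ 0 → 0 < qa (Nm lam v s t) z) ∧
      (1 / (Fintype.card C : ℝ)) * ∑ c, ∑ l ∈ range (t c),
        ‖star ((Nm lam v s t)⁻¹.mulVec z) ⬝ᵥ wv lam v c l‖ ^ 2 ≤ qa (Nm lam v s t) z

/-- PACKET GRD (may assume AVG, RK1, GRD1, GRD2, GRD3, GRD5, GRDF).  The greedy bound.
Proof.  `lam j = σ_j α`, `v c j = σ_j (x c) ≠ 0`, `M = ∏ ‖lam j‖ > 1`.  Take `s` from GRD1, `L` from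
GRD2, `κ` from GRD5 and the path of GRD3 with `Elig t c : qa (N t) (Λ^{t c} v_c) ≤ M² - 1`.  Put
`e_i = (t_i (c_i), c_i)` for `i < m`; these are distinct and
`{e_{i'} : i' < i} = {(l,c) : l < t_i c}` (each step increases one coordinate by one).  The functional
is `φ_i(y) = ∑_j conj(ψ_j) σ_j(y)`, `ψ = N(t_i)⁻¹ w_i`, `w_i = Λ^{t_i (c_i)} v_{c_i}`, so
`φ_i(α^l x_c) = ψ* Λ^l v_c`.  By GRDF `S_i = a_i²` and `N_i ≤ a_i` with `a_i = qa (N t_i) w_i > 0`,
so `S_i/(S_i+N_i) ≥ a_i/(1+a_i) ≥ a_i/M²` (as `a_i ≤ M² - 1`).  By RK1,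
`log det N(t_{i+1}) - log det N(t_i) = log (1 + a_i/|C|) ≤ a_i/|C|`.  AVG gives
`avgEnt ≥ (1/|C|) ∑ ½ a_i/M² ≥ ½ M^(-2) (log det N(t_m) - log det N(0))
≥ ½ M^(-2) (log κ + 2 (n - L) log M - e log s)` (GRD5 with `k = n - L`, truncated subtraction). -/
def GRD_stmt : Prop :=
  ∀ (K : Type u) [Field K] (C : Type) [Fintype C] [Nonempty C] (α : K)
    (x : C → K), (∀ c, x c ≠ 0) → ∀ (e : ℕ), 0 < e → ∀ σ : Fin e → (K →+* ℂ),
    Function.Injective (fun j => σ j α) → (∀ j, 1 < ‖σ j α‖) →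
    ∃ B : ℝ, ∀ n : ℕ,
      (Real.log (∏ j, ‖σ j α‖) / (∏ j, ‖σ j α‖) ^ 2) * ((n : ℝ) - B) ≤ avgEnt α x n

/-! ## Part 5: algebraic numbers -/

/-- The Mahler measure of (the minimal polynomial over `ℤ` of) `α`. -/
noncomputable def mah {K : Type u} [Field K] (α : K) : ℝ :=
  ((minpoly ℤ α).map (Int.castRingHom ℂ)).mahlerMeasure

/-- PACKET EMB.  `K` algebraic over `ℚ`, `α` integral: the Mahler measure of `α` is the product of
`max 1 ‖z‖` over the set `Z` of complex roots of its minimal polynomial, and every such root is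
`σ α` for an embedding `σ : K → ℂ`.
Proof.  `minpoly ℤ α` is monic and maps to `minpoly ℚ α` (`minpoly.isIntegrallyClosed_eq_field_fractions'`),
which is separable, so its roots in `ℂ` are simple; `mahlerMeasure_eq_leadingCoeff_mul_prod_roots`.
Embeddings: `Algebra.IsAlgebraic.range_eval_eq_rootSet_minpoly` or
`IntermediateField.exists_algHom_of_splits`-type lemmas (`IsAlgClosed.lift`). -/
def EMB_stmt : Prop :=
  ∀ (K : Type u) [Field K] [CharZero K], Algebra.IsAlgebraic ℚ K → ∀ (α : K), IsIntegral ℤ α →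
    ∃ Z : Finset ℂ, (∀ z ∈ Z, ∃ σ : K →+* ℂ, σ α = z) ∧ mah α = ∏ z ∈ Z, max 1 ‖z‖

/-- PACKET TW (may assume ENT, BIG, GRD, EMB).  The main analytic lemma.
Proof.  `Z` from EMB.  Let `E = {z ∈ Z : ‖z‖ > 1}`, `M = mah α = ∏_{E} ‖z‖`.
(a) `E = ∅`: `log M = 0`, and `avgEnt ≥ 0` by ENT.
(b) some `z ∈ Z` has `‖z‖ ≥ 2`: BIG, `3/14 ≥ 1/8 ≥ (1/8) min(1, log M)`, `B = 0`.
(c) all `‖z‖ < 2` on `E ≠ ∅` and `M < √2`: GRD for `E` (enumerated by `Fin e`):
`log M/M² ≥ ½ log M ≥ (1/8) min(1, log M)`.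
(d) all `‖z‖ < 2` on `E` and `M ≥ √2`: there is a subset `E' ⊆ E` with
`√2 ≤ ∏_{E'} ‖z‖ ≤ 2√2` (take a minimal subset with product `≥ √2`; removing one element makes
the product `< √2`, and that element is `< 2`).  With `P = ∏_{E'}`, `log P/P² ≥ 1/8`: with
`q = P² ∈ [2,8]` this is `log q ≥ q/4`, true at the end points and by concavity between.
To pass from the coefficient `a ≥ b := (1/8) min(1, log M) ≥ 0` to `b`: from
`avgEnt ≥ a (n - B)` and `avgEnt ≥ 0` get `avgEnt ≥ b (n - max B 0)`. -/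
def TW_stmt : Prop :=
  ∀ (K : Type u) [Field K] [CharZero K], Algebra.IsAlgebraic ℚ K →
    ∀ (C : Type) [Fintype C] [Nonempty C] (α : K), IsIntegral ℤ α →
    ∀ x : C → K, (∀ c, x c ≠ 0) →
    ∃ B : ℝ, ∀ n : ℕ, (1 / 8) * min 1 (Real.log (mah α)) * ((n : ℝ) - B) ≤ avgEnt α x n

/-- PACKET GOLD.  The golden ratio: an algebraic unit with small Mahler measure.
`λ = (1+√5)/2`, minimal polynomial `X² - X - 1`, Mahler measure `λ`, `λ² < e`. -/
def GOLD_stmt : Prop :=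
  ∃ lam : ℂ, lam ≠ 0 ∧ IsIntegral ℤ lam ∧ IsIntegral ℤ lam⁻¹ ∧ (∀ k : ℕ, 0 < k → lam ^ k ≠ 1) ∧
    Real.log (mah lam) ≤ 1 / 2

/-- PACKET CAST.  Moving an element of a field algebraic over `ℚ` to `ℂ`. -/
def CAST_stmt : Prop :=
  ∀ (K : Type u) [Field K] [CharZero K], Algebra.IsAlgebraic ℚ K → ∀ (α : K), α ≠ 0 →
    IsIntegral ℤ α → IsIntegral ℤ α⁻¹ → (∀ k : ℕ, 0 < k → α ^ k ≠ 1) →
    ∃ lam : ℂ, lam ≠ 0 ∧ IsIntegral ℤ lam ∧ IsIntegral ℤ lam⁻¹ ∧
      (∀ k : ℕ, 0 < k → lam ^ k ≠ 1) ∧ mah lam = mah α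

/-! ## Part 6: combinatorics of the group -/

variable {G : Type u} [Group G] {K : Type v} [Field K]

/-- `χ(x)` at the place `h` is not a root of unity. -/
def Hyp' (R : AffRep (commutator G) K) (h x : G) : Prop :=
  ∀ k : ℕ, 0 < k → (R.at' h).χ x ^ k ≠ 1

/-- Within distance `< d` of a position where the commutator of letters `x` has infinite order
linear part, all commutators of letters fix its center. -/
def FixProp' [DecidableEq G] (T : Finset G) (R : AffRep (commutator G) K) (d : ℕ) : Prop :=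
  ∀ h x y g : G, ∀ m : ℕ, IsX T x → IsX T y → Hyp' R h x → g ∈ T ^ m → m < d →
    (R.at' (g * h)).act y ((R.at' h).ctr x) = (R.at' h).ctr x

/-- PACKET CMBMIN.  Copy of `Pool.Agent.Helper11.Gap.exists_min` (file Gap/Dist.lean) with `Hyp`
replaced by `Hyp'` and `H1` by a non-torsion `χ n`.  The only change: in the proof that a hyperbolic
position exists, use the subgroup `{n ∈ G' : ∃ k > 0, χ(n)^k = 1}`. -/
def CMBMIN_stmt : Prop :=
  ∀ (G : Type u) [Group G] [DecidableEq G] (K : Type v) [Field K] (T : Finset G), Sym T →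
    Subgroup.closure (T : Set G) = ⊤ → ∀ R : AffRep (commutator G) K,
    (∃ n ∈ commutator G, ∀ k : ℕ, 0 < k → R.χ n ^ k ≠ 1) →
    (∀ z : K, ∃ n ∈ commutator G, R.act n z ≠ z) →
    ∃ d : ℕ, FixProp' T R d ∧ ∃ h x y g : G, IsX T x ∧ IsX T y ∧ Hyp' R h x ∧ g ∈ T ^ d ∧
      (R.at' (g * h)).act y ((R.at' h).ctr x) ≠ (R.at' h).ctr x

/-- The combinatorial pattern: places `i < D`, an element `u` fixing the point `o` at the places
`i ∈ I` with linear part not a root of unity, and elements `Y t` such that `Y t` fixes `o` at the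
place `i` for `t < i` but `Y i` does not; all blocks are short. -/
structure Pat {G : Type u} [Group G] [DecidableEq G] {K : Type v} [Field K] (T : Finset G)
    (R : AffRep (commutator G) K) where
  D : ℕ
  hs : ℕ → G
  o : K
  u : G
  Y : ℕ → G
  I : Finset ℕ
  hD : 1 ≤ D
  hu : u ∈ commutator G
  hY : ∀ t, Y t ∈ commutator G
  hI : ∀ i ∈ I, i < D
  hcard : D ≤ 2 * I.card
  hfix : ∀ i ∈ I, (R.at' (hs i)).act u o = o
  hχ : ∀ i ∈ I, ∀ k : ℕ, 0 < k → (R.at' (hs i)).χ u ^ k ≠ 1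
  hb : ∀ i ∈ I, ∀ t < i, (R.at' (hs i)).act (Y t) o = o
  hc : ∀ i ∈ I, (R.at' (hs i)).act (Y i) o ≠ o
  hlen : ∀ J : Finset ℕ, blk Y u D J ∈ T ^ (22 * D)

/-- PACKET CMB (may assume CMBMIN_stmt).  Copy of `dynamics` (the part `hmoveall`, with
`swap_step_one`) and of `mainOne` (files Gap/Dynamics.lean, Gap/MainOne.lean), up to the
construction of the blocks; no elliptic hypothesis is needed, and no sign selection: `u = u₀`,
`I = {i < D : χ_i(u₀) not a root of unity}`.  Apply `exists_J0` with `Γ = Kˣ ⧸ CommGroup.torsion Kˣ`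
and `c i t` the class of `χ_i(X_t)`. -/
def CMB_stmt : Prop :=
  ∀ (G : Type u) [Group G] [DecidableEq G] (K : Type v) [Field K] (T : Finset G), Sym T →
    Subgroup.closure (T : Set G) = ⊤ → ∀ R : AffRep (commutator G) K,
    (∃ n ∈ commutator G, ∀ k : ℕ, 0 < k → R.χ n ^ k ≠ 1) →
    (∀ z : K, ∃ n ∈ commutator G, R.act n z ≠ z) → Nonempty (Pat T R)

/-- PACKET FIN1 (may assume CHN_stmt).  From the pattern to entropies.
Proof.  Write `R_i = R.at' (hs i)`, `α_i = R_i.χ u`, `B = Fin n → Bool`, and index the coordinates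
by `p : Fin D`, `p ↔ place i = D - 1 - p` (`Fin.rev`).  For `ω : Fin D → B` and `k < n` let
`J_k(ω) = {i < D : ω (rev i) k = true}` and `F ω = ∏_{k<n} blk Y u D (J_k ω) ∈ T^(22 D n)`
(product of a list, `Pool.Agent.Helper11.Gap.list_prod_mem_pow`).
For `i ∈ I` let `X_p(ω) = R_i.act (F ω) o - o`, for `i ∉ I` let `X_p = 0`.  By `act_blk` and
`act_list_prod` (Gap/CaseOne.lean) `R_i.act (F ω) o = compo α_i [c_0,…,c_{n-1}] o` with
`c_k = R_i.act (seg Y (J_k ω) 0 D) o`, and `compo α (c :: l) o - o = (1-α)(c - o) + α (compo α l o - o)`,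
so `X_p(ω) = ∑_k α_i^k (1-α_i)(c_k - o)`.  By `seg_add`, `fix_seg` (as in caseOne):
`c_k - o = [R_i.act s_k o - o] + (if i ∈ J_k then R_i.χ(s_k) (R_i.act (Y i) o - o) else 0)`,
`s_k = seg Y (J_k ω) (i+1) (D-i-1)`, which depends only on `J_k ∩ (i, D)`, i.e. on the coordinates
`q < p`.  So `X_p` depends only on `ω_q`, `q ≤ p`, and is a function of `F ω`: CHN applies and the
right side is at most `log |T^(22 D n)|`.  Put
`x i c = (1-α_i) R_i.χ(seg Y (J c) (i+1) (D-i-1)) (R_i.act (Y i) o - o)` with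
`J c = {t < D : c t = true}`, nonzero for `i ∈ I` (`hχ` with `k = 1`, `hc`, `χ_ne_zero`).  For `p ↔ i ∈ I`:
`X_p(update ω p b) = A(ω) + ∑_k if b k then α_i^k x i (c_k(ω)) else 0` with
`c_k(ω) = (t ↦ ω (rev t) k)`; the translation `A(ω)` does not change the entropy, the integrand does not
depend on the `i`-th bit of `c_k`, and `ω ↦ (k ↦ c_k(ω))` is a bijection
`(Fin D → Fin n → Bool) ≃ (Fin n → Fin D → Bool)`, so the average over `ω` is `avgEnt α_i (x i) n`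
(`|B|^D = |Fin D → Bool|^n`). -/
def FIN1_stmt : Prop :=
  ∀ (G : Type u) [Group G] [DecidableEq G] (K : Type v) [Field K] (T : Finset G)
    (R : AffRep (commutator G) K) (P : Pat T R), T.Nonempty →
    ∃ x : ℕ → (Fin P.D → Bool) → K, (∀ i ∈ P.I, ∀ c, x i c ≠ 0) ∧
      ∀ n : ℕ, ∑ i ∈ P.I, avgEnt ((R.at' (P.hs i)).χ P.u) (x i) n ≤
        Real.log ((T ^ (22 * P.D * n)).card : ℝ)

/-- `T` has growth at least `a` per `l` letters. -/
def Grow {G : Type u} [Group G] [DecidableEq G] (T : Finset G) (l : ℕ) (a : ℝ) : Prop :=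
  ∃ B : ℝ, ∀ n : ℕ, a * ((n : ℝ) - B) ≤ Real.log ((T ^ (l * n)).card : ℝ)

/-- PACKET FIN2 (may assume ENT, TW, FIN1).  Proof: TW for each `i ∈ I` (`C = Fin D → Bool`), choose
`i ∈ I` minimising `mah α_i` (`I` is nonempty), use `D/2 ≤ |I|`, and the maximum of the constants `B`
(made nonnegative). -/
def FIN2_stmt : Prop :=
  ∀ (G : Type u) [Group G] [DecidableEq G] (K : Type v) [Field K] [CharZero K],
    Algebra.IsAlgebraic ℚ K → ∀ (T : Finset G) (R : AffRep (commutator G) K),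
    (∀ n ∈ commutator G, IsIntegral ℤ (R.χ n)) → T.Nonempty → ∀ P : Pat T R,
    ∃ n ∈ commutator G, (∀ k : ℕ, 0 < k → R.χ n ^ k ≠ 1) ∧
      Grow T (22 * P.D) (((P.D : ℝ) / 16) * min 1 (Real.log (mah (R.χ n))))

/-- PACKET MET (may assume ENT, TW).  The metabelian case.
Proof.  Let `act g z = χ g z + β g`.  Some letter `s ∈ T` has `χ s` non-torsion (otherwise all of
`G` has torsion `χ`, as `T` generates).  Let `o = β s/(1 - χ s)` be its fixed point.  Some `t ∈ T`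
moves `o` (otherwise `G` fixes `o`).  Let `α = χ s`.  For bits `δ_0, …, δ_{n-1}` the element
`∏_k (t^{δ_k} s t^{-δ_k}) ∈ T^(3n)` (`1 ∈ T`, `T` symmetric) acts by
`o ↦ o + ∑_k α^k (1-α) δ_k (t o - o)`, so ENT gives
`log |T^(3n)| ≥ ent (δ ↦ ∑_k δ_k α^k x) = avgEnt α (fun _ : Unit => x) n`, `x = (1-α)(t o - o) ≠ 0`;
now TW with `C = Unit`. -/
def MET_stmt : Prop :=
  ∀ (G : Type u) [Group G] [DecidableEq G] (K : Type v) [Field K] [CharZero K],
    Algebra.IsAlgebraic ℚ K → ∀ (T : Finset G), Sym T → Subgroup.closure (T : Set G) = ⊤ →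
    ∀ χ β : G → K, χ 1 = 1 → (∀ a b, χ (a * b) = χ a * χ b) →
    (∀ a b, β (a * b) = β a + χ a * β b) → (∃ n, ∀ k : ℕ, 0 < k → χ n ^ k ≠ 1) →
    (∀ z : K, ∃ n, χ n * z + β n ≠ z) → (∀ n, IsIntegral ℤ (χ n)) →
    ∃ n, (∀ k : ℕ, 0 < k → χ n ^ k ≠ 1) ∧
      Grow T 3 ((1 / 8) * min 1 (Real.log (mah (χ n))))

/-! ## Part 7: algebra -/

/-- Virtually nilpotent. -/
def VN (H : Type u) [Group H] : Prop := ∃ N : Subgroup H, N.FiniteIndex ∧ Group.IsNilpotent N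

/-- PACKET PCFG.  All subgroups of a polycyclic group are finitely generated.
Proof.  Chain `H 0 = ⊥, …, H n = ⊤`.  For a subgroup `L`, show by induction on `i` that `L ⊓ H i` is
finitely generated: `H i` is normal in `H (i+1) = H i ⊔ ⟨g⟩`, every element of `H (i+1)` is `x g^k`
with `x ∈ H i`.  The set of `k ∈ ℤ` with `x g^k ∈ L` for some `x ∈ H i` is a subgroup of `ℤ`,
generated by some `k₀`; with `y = x₀ g^{k₀} ∈ L`, `L ⊓ H (i+1) = (L ⊓ H i) ⊔ ⟨y⟩`. -/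
def PCFG_stmt : Prop :=
  ∀ (G : Type u) [Group G], IsPolycyclic G → ∀ L : Subgroup G, L.FG

/-- PACKET FBN.  A group `H` with a finite normal subgroup `F` and a finite index subgroup `U` whose
lower central series reaches `F` is virtually nilpotent.  (`x` below is the lower central series of
`U`, as a sequence of subgroups of `H`.)
Proof.  `C` = centralizer of `F` in `U`, of finite index in `H` (kernel of the conjugation action on
the finite set `F`, intersected with `U`).  The lower central series of `C` is contained in that of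
`U`, so its `n`-th term lies in `C ∩ F`, which is central in `C`; so the next term is trivial. -/
def FBN_stmt : Prop :=
  ∀ (H : Type u) [Group H] (F U : Subgroup H) [F.Normal], Finite F → U.FiniteIndex →
    (∃ n : ℕ, ∀ x : ℕ → Subgroup H, x 0 = U → (∀ i, x (i + 1) = ⁅x i, U⁆) → x n ≤ F) → VN H

/-- A nonzero additive functional on the subgroup `A` (extended arbitrarily to `H`). -/
def AddOn {H : Type u} [Group H] (A : Subgroup H) {K : Type v} [Field K] (f : H → K) : Prop :=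
  ∀ a ∈ A, ∀ b ∈ A, f (a * b) = f a + f b

/-- PACKET UNI (may assume FBN_stmt).  `K = AlgebraicClosure ℚ`.  `H` finitely generated, `A` a normal
abelian finitely generated subgroup containing `[H,H]`, `H` not virtually nilpotent.  Then some
`n₀ ∈ H` has an eigenvector in `Hom(A,K)` whose eigenvalue is not a root of unity.
Proof.  `V = Hom(A,K)` (additive characters, a finite dimensional `K`-space since `A` is finitely
generated), `(T_n f)(a) = f(n a n⁻¹)`.  The `T_n` commute and `n ↦ T_n` is multiplicative since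
`[H,H] ≤ A` acts trivially on `A`.  Suppose all eigenvalues of all `T_n` are roots of unity.  Let
`n_1,…,n_s` generate `H` and let `m > 0` be such that all eigenvalues of all `T_{n_i}` are `m`-th
roots of unity; then `T_{n_i}^m - 1` is nilpotent.  `U = {n : T_n - 1 nilpotent}` is a subgroup
(commuting unipotents) containing `A` and the `n_i^m`; `H/U` is abelian, generated by the finitely
many `n_i U` of finite order, so finite.  The algebra `K[T_n : n ∈ H] ≤ End V` is commutative and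
finite dimensional, so its nilradical is nilpotent: there is `N` such that every product of `N`
operators `T_u - 1`, `u ∈ U`, is zero.  Let `F` = torsion subgroup of `A`, finite, characteristic in
`A`, so normal in `H`; `F = {a ∈ A : f(a) = 0 for all f ∈ V}`.  For `a ∈ A`, `u ∈ U`,
`f([u,a]) = ((T_u - 1) f)(a)`.  So the iterated commutator subgroups: `[U,U] ≤ A` and `N` further
commutators with `U` lie in `F`.  By FBN, `H` is virtually nilpotent: contradiction. -/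
def UNI_stmt : Prop :=
  ∀ (H : Type u) [Group H], Group.FG H → ∀ (A : Subgroup H), A.Normal →
    (∀ a ∈ A, ∀ b ∈ A, a * b = b * a) → A.FG → commutator H ≤ A → ¬ VN H →
    ∃ (n₀ : H) (μ : AlgebraicClosure ℚ) (f : H → AlgebraicClosure ℚ), AddOn A f ∧
      (∃ a ∈ A, f a ≠ 0) ∧ (∀ a ∈ A, f (n₀ * a * n₀⁻¹) = μ * f a) ∧
      ∀ k : ℕ, 0 < k → μ ^ k ≠ 1

/-- PACKET JNT.  From one eigenvector to a joint eigenvector.
Proof.  In the finite dimensional space `V = Hom(A,K)` the operators `(T_n f)(a) = f(n a n⁻¹)`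
commute.  `E` = eigenspace of `T_{n₀}` for `μ`, nonzero and stable under all `T_n`.  Choose a nonzero
subspace `W ≤ E` stable under all `T_n` of minimal dimension.  Each `T_n` has an eigenvector in `W`
(`K` algebraically closed) and the corresponding eigenspace in `W` is stable, hence `W`; so every
`T_n` is a scalar `χ n` on `W`.  Take `0 ≠ f ∈ W`. -/
def JNT_stmt : Prop :=
  ∀ (H : Type u) [Group H] (A : Subgroup H), A.Normal →
    (∀ a ∈ A, ∀ b ∈ A, a * b = b * a) → A.FG → commutator H ≤ A →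
    ∀ (n₀ : H) (μ : AlgebraicClosure ℚ) (f : H → AlgebraicClosure ℚ), AddOn A f →
      (∃ a ∈ A, f a ≠ 0) → (∀ a ∈ A, f (n₀ * a * n₀⁻¹) = μ * f a) →
      ∃ (χ f' : H → AlgebraicClosure ℚ), AddOn A f' ∧ (∃ a ∈ A, f' a ≠ 0) ∧
        (∀ n, ∀ a ∈ A, f' (n * a * n⁻¹) = χ n * f' a) ∧ χ n₀ = μ

/-- PACKET AFF.  The affine representation.
Proof.  `χ` is multiplicative (`f ≠ 0`), `χ a = 1` for `a ∈ A` (`A` abelian).  Put
`β n = f(n₀ n n₀⁻¹ n⁻¹)/(χ n₀ - 1)` (`n₀ n n₀⁻¹ n⁻¹ ∈ [H,H] ≤ A`).  Since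
`n₀ (ab) n₀⁻¹ (ab)⁻¹ = (n₀ a n₀⁻¹ a⁻¹) · a (n₀ b n₀⁻¹ b⁻¹) a⁻¹`, `β (ab) = β a + χ a β b`; for `a ∈ A`
`β a = (χ n₀ f a - f a)/(χ n₀ - 1) = f a`.  No fixed point: for `a ∈ A` with `f a ≠ 0`,
`χ a z + β a = z + f a ≠ z`.  Integrality: the image `f(A) ⊂ K` is a nonzero finitely generated
`ℤ`-module stable under multiplication by `χ n` (`isIntegral_of_smul_mem_submodule` or similar). -/
def AFF_stmt : Prop :=
  ∀ (H : Type u) [Group H] (A : Subgroup H), A.Normal →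
    (∀ a ∈ A, ∀ b ∈ A, a * b = b * a) → A.FG → commutator H ≤ A →
    ∀ (χ f : H → AlgebraicClosure ℚ) (n₀ : H), AddOn A f → (∃ a ∈ A, f a ≠ 0) →
      (∀ n, ∀ a ∈ A, f (n * a * n⁻¹) = χ n * f a) → χ n₀ ≠ 1 →
      χ 1 = 1 ∧ (∀ a b, χ (a * b) = χ a * χ b) ∧ (∀ n, IsIntegral ℤ (χ n)) ∧
      ∃ β : H → AlgebraicClosure ℚ, (∀ a b, β (a * b) = β a + χ a * β b) ∧
        ∀ z : AlgebraicClosure ℚ, ∃ n, χ n * z + β n ≠ z

/-! ## Part 8: rates -/

/-- PACKET RATE.  Growth of the image of `S` in a quotient of `⟨S⟩` bounds the rate.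
Proof.  `T` = image of `insert 1 S` in `Q`; `|T^k| ≤ |(insert 1 S)^k| ≤ 2 |S^(k+1)|`
(`card_insert_pow_le`), then let `n → ∞` as in `rate_of_growth` (Gap/Final.lean).  Here `T` is any
finite set of `Q` with `T ⊆ φ((insert 1 S))` elementwise. -/
def RATE_stmt : Prop :=
  ∀ (Γ : Type u) [Group Γ] [DecidableEq Γ] (S : Finset Γ), S.Nonempty → (∀ s ∈ S, s⁻¹ ∈ S) →
    ∀ (Q : Type v) [Group Q] [DecidableEq Q] (φ : Subgroup.closure (S : Set Γ) →* Q)
      (T : Finset Q), (∀ y ∈ T, ∃ z : Subgroup.closure (S : Set Γ), ((z : Γ) = 1 ∨ (z : Γ) ∈ S) ∧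
        φ z = y) →
    ∀ (l : ℕ) (a ρ : ℝ), 0 < l → 0 ≤ a → Grow T l a →
      Tendsto (fun n : ℕ => Real.log ((S ^ n).card : ℝ) / n) atTop (𝓝 ρ) → a / l ≤ ρ

/-- The final statement. -/
def FINAL_stmt : Prop :=
  ∀ (Γ : Type u) [Group Γ] [DecidableEq Γ] (S : Finset Γ), (∀ s ∈ S, s⁻¹ ∈ S) →
    ∀ (Q : Type v) [Group Q] (φ : Subgroup.closure (S : Set Γ) →* Q), Function.Surjective φ →
      derivedSeries Q 3 = ⊥ → (¬ VN (commutator Q) ∨ ¬ VN (Q ⧸ derivedSeries Q 2)) →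
      ∃ ρ : ℝ, Tendsto (fun n : ℕ => Real.log ((S ^ n).card : ℝ) / n) atTop (𝓝 ρ) ∧
        ∃ lam : ℂ, lam ≠ 0 ∧ IsIntegral ℤ lam ∧ IsIntegral ℤ lam⁻¹ ∧
          (∀ k : ℕ, 0 < k → lam ^ k ≠ 1) ∧ (1 / 352) * min 1 (Real.log (mah lam)) ≤ ρ

end Pool.Agent.Helper94.GA
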